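import Mathlib
import Pool.Agent.H422.MF.LocQ

/-!
# `z ↦ β z ^ n + γ / z ^ m` at one nonarchimedean place
-/

set_option autoImplicit false

open Polynomial

namespace Pool.Agent.H422.BN

open Pool.Agent.H422.HE Pool.Agent.H422.UC Pool.Agent.H422.MF

/-- the map `z ↦ β z ^ n + γ / z ^ m` (with the value `0` at `0`) -/
def fB {K : Type*} [Field K] (β γ : K) (n m : ℕ) : K → K := fun z => β * z ^ n + γ / z ^ m

section

variable {K : Type*} [Field K] {β γ : K} {n m : ℕ}

lemma fB_zero (hn : 1 ≤ n) (hm : 1 ≤ m) : fB β γ n m 0 = 0 := by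
  simp [fB, show n ≠ 0 by omega, show m ≠ 0 by omega]

lemma fB_root {ζ z : K} (h : ζ ^ n = 1) (h' : ζ ^ m = 1) :
    fB β γ n m (ζ * z) = fB β γ n m z := by
  simp only [fB]; rw [mul_pow, mul_pow, h, h', one_mul, one_mul]

/-- preperiodic with nonzero orbit -/
def NZ (β γ : K) (n m : ℕ) (z : K) : Prop := Pre (fB β γ n m) z ∧ ∀ k, (fB β γ n m)^[k] z ≠ 0

lemma NZ.step {z : K} (h : NZ β γ n m z) : NZ β γ n m (fB β γ n m z) :=
  ⟨h.1.step, fun k => by rw [← Function.iterate_succ_apply]; exact h.2 (k + 1)⟩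

lemma NZ.iter {z : K} (h : NZ β γ n m z) (k : ℕ) : NZ β γ n m ((fB β γ n m)^[k] z) := by
  induction k with
  | zero => exact h
  | succ k ih => rw [Function.iterate_succ_apply']; exact ih.step

lemma NZ.ne {z : K} (h : NZ β γ n m z) : z ≠ 0 := h.2 0

lemma zero_iter (hn : 1 ≤ n) (hm : 1 ≤ m) (k : ℕ) : (fB β γ n m)^[k] 0 = 0 := by
  induction k with
  | zero => rfl
  | succ k ih => rw [Function.iterate_succ_apply, fB_zero hn hm, ih]

lemma NZ.of_per (hn : 1 ≤ n) (hm : 1 ≤ m) {z : K} (h : Per (fB β γ n m) z) (hz : z ≠ 0) :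
    NZ β γ n m z := by
  refine ⟨h.pre, fun k hk => ?_⟩
  have h0 : Per (fB β γ n m) 0 := ⟨1, one_pos, by rw [Function.iterate_one, fB_zero hn hm]⟩
  apply hz
  apply per_inj (k := k) h h0
  rw [hk, zero_iter hn hm]

lemma NZ.root (hn : 1 ≤ n) {ζ z : K} (h : ζ ^ n = 1) (h' : ζ ^ m = 1)
    (hz : NZ β γ n m z) : NZ β γ n m (ζ * z) := by
  refine ⟨?_, fun k => ?_⟩
  · apply Pre.of_step
    rw [fB_root h h']; exact hz.1.step
  · match k with
    | 0 =>
      simp only [Function.iterate_zero, id]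
      refine mul_ne_zero ?_ hz.ne
      rintro rfl
      rw [zero_pow (by omega)] at h
      exact zero_ne_one h
    | k + 1 =>
      rw [Function.iterate_succ_apply, fB_root h h', ← Function.iterate_succ_apply]
      exact hz.2 (k + 1)

lemma NM_root {ζ x y : K} (h : ζ ^ n = 1) (h' : ζ ^ m = 1) (hn : NM (fB β γ n m) x y) :
    NM (fB β γ n m) x (ζ * y) := by
  have hFz := fB_root (β := β) (γ := γ) (z := y) h h'
  intro k
  match k with
  | 0 =>
    intro h1
    simp only [Function.iterate_zero, id] at h1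
    apply hn 1
    rw [Function.iterate_one, h1, hFz]
  | k + 1 =>
    rw [Function.iterate_succ_apply, Function.iterate_succ_apply, hFz]
    have := hn (k + 1)
    rwa [Function.iterate_succ_apply, Function.iterate_succ_apply] at this

end

section loc

variable {K : Type*} [Field K] {Γ : Type*} [LinearOrderedCommGroupWithZero Γ] {v : Valuation K Γ}
  {β γ : K} {n m : ℕ}

lemma vpos {z : K} (hz : z ≠ 0) : 0 < v z := zero_lt_iff.mpr ((Valuation.ne_zero_iff _).mpr hz)

lemma v_top {z : K} (hz : z ≠ 0) (h : v γ < v β * v z ^ (n + m)) :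
    v (fB β γ n m z) = v β * v z ^ n := by
  have h1 : v (γ / z ^ m) < v (β * z ^ n) := by
    rw [map_div₀, map_mul, map_pow, map_pow, div_lt_iff₀ (pow_pos (vpos hz) _), mul_assoc,
      ← pow_add]
    exact h
  rw [fB, Valuation.map_add_eq_of_lt_left _ h1, map_mul, map_pow]

lemma v_bot {z : K} (hz : z ≠ 0) (h : v β * v z ^ (n + m) < v γ) :
    v (fB β γ n m z) = v γ / v z ^ m := by
  have h1 : v (β * z ^ n) < v (γ / z ^ m) := by
    rw [map_div₀, map_mul, map_pow, map_pow, lt_div_iff₀ (pow_pos (vpos hz) _), mul_assoc,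
      ← pow_add]
    exact h
  rw [fB, Valuation.map_add_eq_of_lt_right _ h1, map_div₀, map_pow]

lemma v_mid {z : K} (hz : z ≠ 0) (h : v β * v z ^ (n + m) = v γ) :
    v (fB β γ n m z) ≤ v β * v z ^ n := by
  refine (v.map_add _ _).trans (max_le (by rw [map_mul, map_pow]) ?_)
  rw [map_div₀, map_pow, div_le_iff₀ (pow_pos (vpos hz) _), mul_assoc, ← pow_add, h]

/-- differences -/
lemma v_close {x y : K} (hy : y ≠ 0) (h : v (x - y) < v y)
    (hoff : v β * v y ^ (n + m) ≠ v γ) :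
    v (fB β γ n m x - fB β γ n m y) < v (fB β γ n m y) := by
  have hvy := vpos (v := v) hy
  have hxy : v x = v y := by
    have : x = y + (x - y) := by ring
    rw [this, Valuation.map_add_eq_of_lt_left]
    exact h
  have hx : x ≠ 0 := by
    rintro rfl
    rw [map_zero] at hxy
    exact absurd hxy hvy.ne
  have h1 := pow_close v h n
  have h2 := pow_close v h m
  have e1 : fB β γ n m x - fB β γ n m y =
      β * (x ^ n - y ^ n) - γ * (x ^ m - y ^ m) / (x ^ m * y ^ m) := by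
    simp only [fB]
    field_simp
    ring
  rw [e1]
  have hM : max (v β * v y ^ n) (v γ / v y ^ m) = v (fB β γ n m y) := by
    rcases lt_or_gt_of_ne hoff with h3 | h3
    · rw [v_bot hy h3, max_eq_right]
      rw [le_div_iff₀ (pow_pos hvy _), mul_assoc, ← pow_add]
      exact h3.le
    · rw [v_top hy h3, max_eq_left]
      rw [div_le_iff₀ (pow_pos hvy _), mul_assoc, ← pow_add]
      exact h3.le
  have hpos : 0 < v (fB β γ n m y) := by
    rcases lt_or_gt_of_ne hoff with h3 | h3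
    · rw [v_bot hy h3]
      exact div_pos (lt_of_le_of_lt zero_le h3) (pow_pos hvy _)
    · rw [v_top hy h3]
      have h4 : 0 < v β * v y ^ (n + m) := lt_of_le_of_lt zero_le h3
      rw [pow_add, ← mul_assoc] at h4
      exact zero_lt_iff.mpr (left_ne_zero_of_mul h4.ne')
  refine lt_of_le_of_lt (v.map_sub _ _) (max_lt ?_ ?_)
  · rw [map_mul]
    rcases eq_or_ne (v β) 0 with h0 | h0
    · rw [h0, zero_mul]; exact hpos
    · calc v β * v (x ^ n - y ^ n) < v β * v y ^ n :=
            (mul_lt_mul_iff_right₀ (zero_lt_iff.mpr h0)).mpr h1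
        _ ≤ _ := by rw [← hM]; exact le_max_left _ _
  · rw [map_div₀, map_mul, map_mul, map_pow, map_pow, hxy,
      div_lt_iff₀ (mul_pos (pow_pos hvy _) (pow_pos hvy _))]
    rcases eq_or_ne (v γ) 0 with h0 | h0
    · rw [h0, zero_mul]
      exact mul_pos hpos (mul_pos (pow_pos hvy _) (pow_pos hvy _))
    · calc v γ * v (x ^ m - y ^ m) < v γ * v y ^ m :=
            (mul_lt_mul_iff_right₀ (zero_lt_iff.mpr h0)).mpr h2
        _ = (v γ / v y ^ m) * (v y ^ m * v y ^ m) := by
            rw [← mul_assoc, div_mul_cancel₀ _ (pow_pos hvy m).ne']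
        _ ≤ _ := mul_le_mul' (by rw [← hM]; exact le_max_right _ _) le_rfl

/-! ### the expanding case -/

section big

variable (hβ : β ≠ 0) (hγ : γ ≠ 0) (hn : 2 ≤ n) (hm : 1 ≤ m)
  (hJ : 1 < v β ^ (m + 1) * v γ ^ (n - 1))

include hβ hn hJ in
lemma big_grow {z : K} (hz : z ≠ 0) (h : v γ < v β * v z ^ (n + m)) :
    v z < v β * v z ^ n := by
  have hvz := vpos (v := v) hz
  have hvβ := vpos (v := v) hβ
  have h1 : 1 < v β * v z ^ (n - 1) := by
    have h2 : 1 < (v β * v z ^ (n - 1)) ^ (n + m) := by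
      have e1 : (v β * v z ^ (n - 1)) ^ (n + m) =
          v β ^ (m + 1) * (v β * v z ^ (n + m)) ^ (n - 1) := by
        rw [mul_pow, mul_pow, ← pow_mul, ← pow_mul, ← mul_assoc, ← pow_add,
          show m + 1 + (n - 1) = n + m by omega, Nat.mul_comm (n - 1)]
      rw [e1]
      refine hJ.trans_le (mul_le_mul' le_rfl (pow_le_pow_left₀ zero_le h.le _))
    by_contra hcon
    rw [not_lt] at hcon
    exact absurd h2 (not_lt.mpr (pow_le_one' hcon _))
  calc v z = 1 * v z := (one_mul _).symm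
    _ < v β * v z ^ (n - 1) * v z := (mul_lt_mul_iff_left₀ hvz).mpr h1
    _ = v β * v z ^ n := by
      rw [mul_assoc, ← pow_succ]; congr 2; omega

include hβ hn hJ in
lemma big_not_top {z : K} (hz : NZ β γ n m z) : ¬ v γ < v β * v z ^ (n + m) := by
  intro h
  refine not_pre_of_lt (f := fB β γ n m)
    (C := fun z => z ≠ 0 ∧ v γ < v β * v z ^ (n + m)) (μ := fun z => v z) ?_ ?_
    ⟨hz.ne, h⟩ hz.1
  · rintro x ⟨hx, h1⟩
    have h2 := v_top hx h1
    have h3 := big_grow hβ hn hJ hx h1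
    rw [← h2] at h3
    have h4 : fB β γ n m x ≠ 0 := by
      intro h0
      rw [h0, map_zero] at h3
      exact absurd h3 (not_lt.mpr zero_le)
    refine ⟨h4, h1.trans ?_⟩
    exact (mul_lt_mul_iff_right₀ (vpos hβ)).mpr
      (pow_lt_pow_left₀ h3 zero_le (by omega))
  · rintro x ⟨hx, h1⟩
    rw [v_top hx h1]
    exact big_grow hβ hn hJ hx h1

include hβ hγ hn hm hJ in
/-- the circle -/
lemma big_circ {z : K} (hz : NZ β γ n m z) : v β * v z ^ (n + m) = v γ := by
  have hvβ := vpos (v := v) hβ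
  have hvγ := vpos (v := v) hγ
  have hvz := vpos (v := v) hz.ne
  rcases lt_trichotomy (v β * v z ^ (n + m)) (v γ) with h | h | h
  swap
  · exact h
  swap
  · exact absurd h (big_not_top hβ hn hJ hz)
  exfalso
  apply big_not_top hβ hn hJ hz.step
  rw [v_bot hz.ne h, div_pow, ← pow_mul, ← mul_div_assoc, lt_div_iff₀ (pow_pos hvz _)]
  -- `v γ * v z ^ (m * (n + m)) < v β * v γ ^ (n + m)`
  have h1 : (v β * v z ^ (n + m)) ^ m < v γ ^ m :=
    pow_lt_pow_left₀ h zero_le (by omega)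
  have h2 : v β ^ m * (v γ * v z ^ (m * (n + m))) < v β ^ m * (v β * v γ ^ (n + m)) := by
    calc v β ^ m * (v γ * v z ^ (m * (n + m))) = v γ * (v β * v z ^ (n + m)) ^ m := by
          rw [mul_pow, ← pow_mul, Nat.mul_comm m]
          ac_rfl
      _ < v γ * v γ ^ m := (mul_lt_mul_iff_right₀ hvγ).mpr h1
      _ = 1 * v γ ^ (m + 1) := by rw [one_mul, pow_succ']
      _ ≤ v β ^ (m + 1) * v γ ^ (n - 1) * v γ ^ (m + 1) := mul_le_mul' hJ.le le_rfl
      _ = v β ^ m * (v β * v γ ^ (n + m)) := by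
          rw [mul_assoc, ← pow_add, show n - 1 + (m + 1) = n + m by omega, pow_succ]
          ac_rfl
  exact (mul_lt_mul_iff_right₀ (pow_pos hvβ m)).mp h2

include hβ hγ hn hm hJ in
/-- expansion -/
theorem big_all {ζ₀ : K} (hζ : IsPrimitiveRoot ζ₀ (n + m))
    (htame : ∀ ζ : K, ζ ^ (n + m) = 1 → ζ ≠ 1 → v (1 - ζ) = 1) {M : ℕ}
    (hM : ∀ z : K, z ≠ 0 → v β * v z ^ (n + m) = v γ → ∃ h : Γ, v β * v z ^ (n - 1) = h ^ M)
    {x y : K} (px : NZ β γ n m x) (py : NZ β γ n m y) (hnm : NM (fB β γ n m) x y)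
    {ζ : K} (h : ζ ^ n = 1) (h' : ζ ^ m = 1) :
    ∃ g, v (x - ζ * y) = g ^ M * v y := by
  have hvβ := vpos (v := v) hβ
  have hvy := vpos (v := v) py.ne
  set ρ := v y with hρ
  have hcy : v β * ρ ^ (n + m) = v γ := big_circ hβ hγ hn hm hJ py
  have hveq : ∀ z : K, NZ β γ n m z → v z = ρ := by
    intro z hz
    have h1 := (big_circ hβ hγ hn hm hJ hz).trans hcy.symm
    exact (pow_left_inj₀ zero_le zero_le (by omega)).mp
      (mul_left_cancel₀ hvβ.ne' h1)
  obtain ⟨g0, hg0⟩ := hM y py.ne hcy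
  have hE1 : 1 < v β * ρ ^ (n - 1) := by
    have h2 : 1 < (v β * ρ ^ (n - 1)) ^ (n + m) := by
      have e1 : (v β * ρ ^ (n - 1)) ^ (n + m) =
          v β ^ (m + 1) * (v β * ρ ^ (n + m)) ^ (n - 1) := by
        rw [mul_pow, mul_pow, ← pow_mul, ← pow_mul, ← mul_assoc, ← pow_add,
          show m + 1 + (n - 1) = n + m by omega, Nat.mul_comm (n - 1)]
      rw [e1, hcy]
      exact hJ
    by_contra hcon
    rw [not_lt] at hcon
    exact absurd h2 (not_lt.mpr (pow_le_one' hcon _))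
  refine chain v (f := fB β γ n m) (C := NZ β γ n m) (fun x hx => hx.step) (ρ := ρ)
    (E := v β * ρ ^ (n - 1)) hveq hvy.ne' hg0 hE1 ?_ px (NZ.root (by omega) h h' py) px.1
    (NZ.root (by omega) h h' py).1 (NM_root h h' hnm)
  intro x y px py hxy
  rcases eq_or_ne x y with rfl | hne
  · rw [sub_self, sub_self, map_zero, mul_zero]
  have hvxy : 0 < v (x - y) := vpos (sub_ne_zero.mpr hne)
  have hx1 := hveq x px
  have hy1 := hveq y py
  have hfy := hveq _ py.step
  have h1 : v (x ^ (n + m) - y ^ (n + m)) = ρ ^ (n + m - 1) * v (x - y) := by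
    rw [bad_step v hζ (by omega) htame (by rw [hy1]; exact hxy), hy1]
  have h2 : v (x ^ m - y ^ m) ≤ ρ ^ (m - 1) * v (x - y) := by
    have h3 : v ((x / y) ^ m - 1 ^ m) ≤ v (x / y - 1) :=
      pow_sub_pow_le v (by rw [map_div₀, hx1, hy1, div_self hvy.ne']) (by rw [map_one]) m
    have hy0 := py.ne
    have e1 : x ^ m - y ^ m = y ^ m * ((x / y) ^ m - 1 ^ m) := by
      rw [div_pow, one_pow]; field_simp
    have e2 : x / y - 1 = (x - y) / y := by field_simp
    rw [e1, map_mul, map_pow, hy1]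
    calc ρ ^ m * v ((x / y) ^ m - 1 ^ m) ≤ ρ ^ m * v (x / y - 1) := mul_le_mul' le_rfl h3
      _ = ρ ^ (m - 1) * v (x - y) := by
        rw [e2, map_div₀, hy1, show m = (m - 1) + 1 by omega, pow_succ, Nat.add_sub_cancel,
          mul_assoc, mul_div_cancel₀ _ hvy.ne']
  have e1 : x ^ m * (fB β γ n m x - fB β γ n m y) =
      β * (x ^ (n + m) - y ^ (n + m)) - (x ^ m - y ^ m) * fB β γ n m y := by
    simp only [fB]
    have hx0 := px.ne
    have hy0 := py.ne
    rw [pow_add, pow_add]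
    field_simp
    ring
  have h3 : v (β * (x ^ (n + m) - y ^ (n + m))) = v β * (ρ ^ (n + m - 1) * v (x - y)) := by
    rw [map_mul, h1]
  have h4 : v ((x ^ m - y ^ m) * fB β γ n m y) < v (β * (x ^ (n + m) - y ^ (n + m))) := by
    rw [h3, map_mul, hfy]
    calc v (x ^ m - y ^ m) * ρ ≤ ρ ^ (m - 1) * v (x - y) * ρ := mul_le_mul' h2 le_rfl
      _ = 1 * (ρ ^ m * v (x - y)) := by
        rw [one_mul, mul_right_comm, ← pow_succ]; congr 2; omega
      _ < (v β * ρ ^ (n - 1)) * (ρ ^ m * v (x - y)) :=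
        (mul_lt_mul_iff_left₀ (mul_pos (pow_pos hvy _) hvxy)).mpr hE1
      _ = v β * (ρ ^ (n + m - 1) * v (x - y)) := by
        rw [mul_assoc, ← mul_assoc (ρ ^ (n - 1)), ← pow_add]
        congr 3; omega
  have h5 : v (x ^ m * (fB β γ n m x - fB β γ n m y)) =
      v β * (ρ ^ (n + m - 1) * v (x - y)) := by
    rw [e1, Valuation.map_sub_eq_of_lt_left _ h4, h3]
  rw [map_mul, map_pow, hx1] at h5
  have h6 : ρ ^ m * v (fB β γ n m x - fB β γ n m y) =
      ρ ^ m * (v β * ρ ^ (n - 1) * v (x - y)) := by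
    rw [h5]
    calc v β * (ρ ^ (n + m - 1) * v (x - y)) = v β * (ρ ^ (m + (n - 1)) * v (x - y)) := by
          congr 3; omega
      _ = ρ ^ m * (v β * ρ ^ (n - 1) * v (x - y)) := by rw [pow_add]; ac_rfl
  exact mul_left_cancel₀ (pow_pos hvy m).ne' h6

end big

/-! ### the unit case -/

section unit

variable (hβ : v β = 1) (hγ : v γ = 1) (hn : 2 ≤ n) (hm : 1 ≤ m)

include hβ hγ hn hm in
lemma unit_circ {z : K} (hz : NZ β γ n m z) : v z = 1 := by
  have htop : ∀ {z : K}, NZ β γ n m z → ¬ 1 < v z := by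
    intro z hz h
    have hcond : ∀ x : K, 1 < v x → v γ < v β * v x ^ (n + m) := by
      intro x hx
      rw [hβ, hγ, one_mul]
      exact one_lt_pow₀ hx (by omega)
    have hgrow : ∀ x : K, 1 < v x → v x < v (fB β γ n m x) := by
      intro x hx
      have hx0 : x ≠ 0 := by
        rintro rfl
        rw [map_zero] at hx
        exact absurd hx (not_lt.mpr zero_le)
      rw [v_top hx0 (hcond x hx), hβ, one_mul]
      calc v x = v x ^ 1 := (pow_one _).symm
        _ < v x ^ n := pow_lt_pow_right₀ hx (by omega)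
    exact not_pre_of_lt (f := fB β γ n m) (C := fun z => 1 < v z) (μ := fun z => v z)
      (fun x hx => hx.trans (hgrow x hx)) hgrow h hz.1
  rcases lt_trichotomy (v z) 1 with h | h | h
  · exfalso
    apply htop hz.step
    have h1 : v β * v z ^ (n + m) < v γ := by
      rw [hβ, hγ, one_mul]
      exact pow_lt_one₀ zero_le h (by omega)
    rw [v_bot hz.ne h1, hγ, lt_div_iff₀ (pow_pos (vpos hz.ne) _), one_mul]
    exact pow_lt_one₀ zero_le h (by omega)
  · exact h
  · exact absurd h (htop hz)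

/-- good reduction: differences of periodic points -/
theorem good_gen' {f : K → K} {e : ℕ} {ζ₀ : K} (hζ : IsPrimitiveRoot ζ₀ e) (he : 2 ≤ e)
    {C : K → Prop} (hC : ∀ x, C x → C (f x)) (hint : ∀ x, C x → v x ≤ 1)
    (hstep : ∀ x y, C x → C y → v (f x - f y) ≤ v (x ^ e - y ^ e)) {x y : K}
    (cx : C x) (cy : C y)
    (hx : Per f x) (hy : Per f y) (hne : x ≠ y) {ζ : K} (h : ζ ^ e = 1) (h1 : ζ ≠ 1) :
    v (x - ζ * y) = 1 := by
  classical
  have hle : ∀ {x y : K}, C x → C y → ∀ ζ : K, ζ ^ e = 1 → v (x - ζ * y) ≤ 1 := by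
    intro x y hx hy ζ h
    refine (v.map_sub _ _).trans (max_le (hint x hx) ?_)
    rw [map_mul, root_v v he h, one_mul]
    exact hint y hy
  have hpr : ∀ x y : K, v (x ^ e - y ^ e) =
      v (x - y) * ∏ ζ ∈ (nthRootsFinset e (1 : K)).erase 1, v (x - ζ * y) := by
    intro x y
    rw [prod_eq v hζ he, ← Finset.mul_prod_erase _ (fun ζ => v (x - ζ * y))
      ((mem_roots' he).mpr (one_pow e)), one_mul]
  have hQ : ∀ {x y : K}, C x → C y →
      ∏ ζ ∈ (nthRootsFinset e (1 : K)).erase 1, v (x - ζ * y) ≤ 1 := by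
    intro x y hx hy
    apply Finset.prod_le_one'
    intro ζ hζ'
    exact hle hx hy ζ ((mem_roots' he).mp (Finset.mem_of_mem_erase hζ'))
  have hst : ∀ x y : K, C x → C y → v (f x - f y) ≤ v (x - y) *
      ∏ ζ ∈ (nthRootsFinset e (1 : K)).erase 1, v (x - ζ * y) := by
    intro x y hx hy
    rw [← hpr]
    exact hstep x y hx hy
  obtain ⟨n, hn, e1, e2⟩ := common_period hx hy
  obtain ⟨-, -, h2⟩ := no_exp v (f := f) (C := C) hC (by
    intro x y hx hy
    refine (hst x y hx hy).trans ?_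
    calc v (x - y) * _ ≤ v (x - y) * 1 := mul_le_mul' le_rfl (hQ hx hy)
      _ = v (x - y) := mul_one _) (hC x cx) (hC y cy) (n - 1)
  rw [← Function.iterate_succ_apply, ← Function.iterate_succ_apply, Nat.succ_eq_add_one,
    Nat.sub_add_cancel hn, e1, e2] at h2
  have h2' := h2.trans (hst x y cx cy)
  have hxy : v (x - y) ≠ 0 := (Valuation.ne_zero_iff _).mpr (sub_ne_zero.mpr hne)
  have h3 : ∏ ζ ∈ (nthRootsFinset e (1 : K)).erase 1, v (x - ζ * y) = 1 := by
    refine le_antisymm (hQ cx cy) ?_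
    have h4 : v (x - y) * 1 ≤ v (x - y) * ∏ ζ ∈ (nthRootsFinset e (1 : K)).erase 1,
        v (x - ζ * y) := by
      rw [mul_one]; exact h2'
    exact (mul_le_mul_iff_right₀ (zero_lt_iff.mpr hxy)).mp h4
  refine all_eq_one _ _ (fun ζ' hζ' => ?_) h3 ζ ?_
  · exact hle cx cy ζ' ((mem_roots' he).mp (Finset.mem_of_mem_erase hζ'))
  · exact Finset.mem_erase.mpr ⟨h1, (mem_roots' he).mpr h⟩

include hβ hγ hn hm in
theorem unit_all {e : ℕ} (hen : e ∣ n) (hem : e ∣ m) {ζ₀ : K} (hζ : IsPrimitiveRoot ζ₀ e)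
    (he : 2 ≤ e) {x y : K}
    (px : Per (fB β γ n m) x) (py : Per (fB β γ n m) y) (hx0 : x ≠ 0) (hy0 : y ≠ 0)
    (hne : x ≠ y) {ζ : K} (h : ζ ^ e = 1) (h1 : ζ ≠ 1) : v (x - ζ * y) = 1 := by
  refine good_gen' hζ he (C := NZ β γ n m) (fun x hx => hx.step)
    (fun x hx => (unit_circ hβ hγ hn hm hx).le) ?_ (NZ.of_per (by omega) hm px hx0)
    (NZ.of_per (by omega) hm py hy0) px py hne h h1
  intro x y hx hy
  have vx := unit_circ hβ hγ hn hm hx
  have vy := unit_circ hβ hγ hn hm hy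
  have hx0 := hx.ne
  have hy0 := hy.ne
  obtain ⟨a, rfl⟩ := hen
  obtain ⟨b, rfl⟩ := hem
  have e1 : fB β γ (e * a) (e * b) x - fB β γ (e * a) (e * b) y =
      β * ((x ^ e) ^ a - (y ^ e) ^ a) -
        γ * ((x ^ e) ^ b - (y ^ e) ^ b) / (x ^ (e * b) * y ^ (e * b)) := by
    simp only [fB]
    rw [← pow_mul, ← pow_mul, ← pow_mul, ← pow_mul]
    field_simp
    ring
  have hxe : v (x ^ e) ≤ 1 := by rw [map_pow, vx, one_pow]
  have hye : v (y ^ e) ≤ 1 := by rw [map_pow, vy, one_pow]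
  rw [e1]
  refine (v.map_sub _ _).trans (max_le ?_ ?_)
  · rw [map_mul, hβ, one_mul]
    exact pow_sub_pow_le v hxe hye a
  · rw [map_div₀, map_mul, map_mul, map_pow v x, map_pow v y, vx, vy, one_pow, mul_one, div_one,
      hγ, one_mul]
    exact pow_sub_pow_le v hxe hye b

end unit

/-! ### the case of the Cantor set of circles -/

section small

variable (hβ : β ≠ 0) (hγ : γ ≠ 0) (hn : 2 ≤ n) (hm : 2 ≤ m) (hnm : 2 ≤ (n - 1) * (m - 1))
  (hJ : v β ^ (m + 1) * v γ ^ (n - 1) < 1)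

include hβ hγ hn hm hnm hJ in
/-- no point of the critical circle -/
lemma small_off {z : K} (hz : NZ β γ n m z) : v β * v z ^ (n + m) ≠ v γ := by
  intro hc
  have hvβ := vpos (v := v) hβ
  have hvγ := vpos (v := v) hγ
  have hρ := vpos (v := v) hz.ne
  set ρ := v z with hρdef
  set E := v β * ρ ^ (n - 1) with hE
  have hE0 : 0 < E := mul_pos hvβ (pow_pos hρ _)
  have hE1 : E < 1 := by
    have h2 : E ^ (n + m) < 1 := by
      have e1 : E ^ (n + m) = v β ^ (m + 1) * (v β * ρ ^ (n + m)) ^ (n - 1) := by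
        rw [hE, mul_pow, mul_pow, ← pow_mul, ← pow_mul, ← mul_assoc, ← pow_add,
          show m + 1 + (n - 1) = n + m by omega, Nat.mul_comm (n - 1)]
      rw [e1, hc]
      exact hJ
    by_contra hcon
    rw [not_lt] at hcon
    exact absurd h2 (not_lt.mpr (one_le_pow₀ hcon))
  have hR : v β * ρ ^ n = E * ρ := by
    rw [hE, mul_assoc, ← pow_succ]; congr 2; omega
  -- the second image is large
  have h1 : v (fB β γ n m z) ≤ E * ρ := by rw [← hR]; exact v_mid hz.ne hc
  have h1' : v (fB β γ n m z) < ρ := lt_of_le_of_lt h1 (by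
    calc E * ρ < 1 * ρ := (mul_lt_mul_iff_left₀ hρ).mpr hE1
      _ = ρ := one_mul _)
  have hz1 := hz.step.ne
  have hbot : v β * v (fB β γ n m z) ^ (n + m) < v γ := by
    rw [← hc]
    exact (mul_lt_mul_iff_right₀ hvβ).mpr (pow_lt_pow_left₀ h1' zero_le (by omega))
  have h2 : E * ρ ≤ v (fB β γ n m (fB β γ n m z)) * E ^ m := by
    rw [v_bot hz1 hbot]
    have h3 : v (fB β γ n m z) ^ m ≤ (E * ρ) ^ m := pow_le_pow_left₀ zero_le h1 m
    have h4 : 0 < v (fB β γ n m z) ^ m := pow_pos (vpos hz1) _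
    rw [div_mul_eq_mul_div, le_div_iff₀ h4]
    calc E * ρ * v (fB β γ n m z) ^ m ≤ E * ρ * (E * ρ) ^ m := mul_le_mul' le_rfl h3
      _ = v γ * E ^ m := by
        rw [← hR, ← hc, hR, mul_pow]
        calc E * ρ * (E ^ m * ρ ^ m) = (E * ρ) * ρ ^ m * E ^ m := by ac_rfl
          _ = v β * ρ ^ (n + m) * E ^ m := by rw [← hR, pow_add, ← mul_assoc]
  -- the growing region
  have key : ∀ w : K, E * ρ ≤ v w * E ^ m → ρ < v w ∧ v w < v (fB β γ n m w) := by
    intro w hw
    have h3 : ρ ≤ v w * E ^ (m - 1) := by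
      have e1 : v w * E ^ m = E * (v w * E ^ (m - 1)) := by
        calc v w * E ^ m = v w * (E ^ (m - 1) * E) := by
              rw [← pow_succ]; congr 2; omega
          _ = _ := by ac_rfl
      rw [e1] at hw
      exact (mul_le_mul_iff_right₀ hE0).mp hw
    have hEm : E ^ (m - 1) < 1 := pow_lt_one₀ zero_le hE1 (by omega)
    have hw0 : 0 < v w := by
      by_contra hcon
      rw [not_lt, le_zero_iff] at hcon
      rw [hcon, zero_mul] at h3
      exact absurd hρ (not_lt.mpr h3)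
    have h4 : ρ < v w := by
      calc ρ ≤ v w * E ^ (m - 1) := h3
        _ < v w * 1 := (mul_lt_mul_iff_right₀ hw0).mpr hEm
        _ = v w := mul_one _
    refine ⟨h4, ?_⟩
    have hwne : w ≠ 0 := (Valuation.ne_zero_iff v).mp hw0.ne'
    have htop : v γ < v β * v w ^ (n + m) := by
      rw [← hc]
      exact (mul_lt_mul_iff_right₀ hvβ).mpr (pow_lt_pow_left₀ h4 zero_le (by omega))
    rw [v_top hwne htop]
    -- `1 < v β * v w ^ (n - 1)`
    have h5 : 1 < v β * v w ^ (n - 1) := by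
      have h6 : E ≤ v β * v w ^ (n - 1) * E ^ ((n - 1) * (m - 1)) := by
        calc E = v β * ρ ^ (n - 1) := hE
          _ ≤ v β * (v w * E ^ (m - 1)) ^ (n - 1) :=
            mul_le_mul' le_rfl (pow_le_pow_left₀ zero_le h3 _)
          _ = v β * v w ^ (n - 1) * E ^ ((n - 1) * (m - 1)) := by
            rw [mul_pow, ← pow_mul, Nat.mul_comm (m - 1), mul_assoc]
      have h7 : E ^ ((n - 1) * (m - 1)) < E := by
        calc E ^ ((n - 1) * (m - 1)) < E ^ 1 := pow_lt_pow_right_of_lt_one₀ hE0 hE1 (by omega)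
          _ = E := pow_one _
      by_contra hcon
      rw [not_lt] at hcon
      have h8 : E ≤ 1 * E ^ ((n - 1) * (m - 1)) := h6.trans (mul_le_mul' hcon le_rfl)
      rw [one_mul] at h8
      exact absurd h7 (not_lt.mpr h8)
    calc v w = 1 * v w := (one_mul _).symm
      _ < v β * v w ^ (n - 1) * v w := (mul_lt_mul_iff_left₀ hw0).mpr h5
      _ = v β * v w ^ n := by rw [mul_assoc, ← pow_succ]; congr 2; omega
  exact not_pre_of_lt (f := fB β γ n m) (C := fun w => E * ρ ≤ v w * E ^ m) (μ := fun w => v w)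
    (fun w hw => hw.trans (mul_le_mul' (key w hw).2.le le_rfl)) (fun w hw => (key w hw).2)
    h2 hz.step.step.1

include hβ hγ hn hm hnm hJ in
theorem small_all {x y : K} (px : Per (fB β γ n m) x) (py : Per (fB β γ n m) y)
    (hy0 : y ≠ 0)
    {ζ : K} (h : ζ ^ n = 1) (h' : ζ ^ m = 1) (h1 : v (1 - ζ) = 1) :
    v (x - ζ * y) = max (v x) (v y) := by
  have hζv : v ζ = 1 := root_v v hn h
  have hζy : v (ζ * y) = v y := by rw [map_mul, hζv, one_mul]
  rcases lt_trichotomy (v x) (v y) with hlt | heq | hgt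
  · rw [Valuation.map_sub_eq_of_lt_right, hζy, max_eq_right hlt.le]
    rw [hζy]; exact hlt
  swap
  · rw [Valuation.map_sub_eq_of_lt_left, max_eq_left hgt.le]
    rw [hζy]; exact hgt
  rw [heq, max_self]
  have hvy := vpos (v := v) hy0
  have hle : v (x - ζ * y) ≤ v y := by
    refine (v.map_sub _ _).trans ?_
    rw [hζy, heq, max_self]
  by_contra hcon
  have hlt : v (x - ζ * y) < v y := lt_of_le_of_ne hle hcon
  have ny := NZ.of_per (β := β) (γ := γ) (by omega : 1 ≤ n) (by omega : 1 ≤ m) py hy0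
  have hζy0 : ζ * y ≠ 0 := (NZ.root (by omega) h h' ny).ne
  have hit : ∀ k, v ((fB β γ n m)^[k + 1] x - (fB β γ n m)^[k + 1] y) <
      v ((fB β γ n m)^[k + 1] y) := by
    intro k
    induction k with
    | zero =>
      have h2 := v_close (β := β) (γ := γ) (n := n) (m := m) (x := x) (y := ζ * y) hζy0
        (by rw [hζy]; exact hlt)
        (by rw [hζy]; exact small_off hβ hγ hn hm hnm hJ ny)
      rw [fB_root h h'] at h2
      exact h2
    | succ k ih =>
      rw [Function.iterate_succ_apply' _ (k + 1) x, Function.iterate_succ_apply' _ (k + 1) y]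
      exact v_close (ny.iter (k + 1)).ne ih (small_off hβ hγ hn hm hnm hJ (ny.iter (k + 1)))
  obtain ⟨p, hp, e1, e2⟩ := common_period px py
  have h2 := hit (p - 1)
  rw [Nat.sub_add_cancel hp, e1, e2] at h2
  have h3 : v ((1 - ζ) * y) = v y := by rw [map_mul, h1, one_mul]
  have h4 : (1 - ζ) * y = (x - ζ * y) - (x - y) := by ring
  have h5 : v ((1 - ζ) * y) < v y := by
    rw [h4]
    exact lt_of_le_of_lt (v.map_sub _ _) (max_lt hlt h2)
  rw [h3] at h5
  exact lt_irrefl _ h5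

end small

end loc

end Pool.Agent.H422.BN
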