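import Mathlib
import Pool.Agent.H422.UC.Global
import Pool.Agent.H422.BN.Loc

/-!
# `z ↦ β z ^ n + γ / z ^ m` over a number field
-/

set_option autoImplicit false

open Polynomial IsDedekindDomain NumberField

namespace Pool.Agent.H422.BN

open Pool.Agent.H422.HE Pool.Agent.H422.UC Pool.Agent.H422.MF

section loc

variable {K : Type*} [Field K] {Γ : Type*} [LinearOrderedCommGroupWithZero Γ] {v : Valuation K Γ}
  {α β γ : K} {n m M : ℕ}

/-- the two kinds of families: one of the coefficients is fixed -/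
def Kd (α β γ : K) (n m M : ℕ) : Prop := (β = α ∧ M = n - 1) ∨ (γ = α ∧ M = m + 1)

/-- all places: the power classes of the factors -/
theorem loc_all (hk : Kd α β γ n m M) (hα : v α = 1) (hβ : β ≠ 0) (hγ : γ ≠ 0)
    (hn : 2 ≤ n) (hm : 2 ≤ m)
    (hnm : 2 ≤ (n - 1) * (m - 1)) {e : ℕ} (hen : e ∣ n) (hem : e ∣ m) (he : 2 ≤ e)
    {ζ₀ ζ₁ : K} (hζ : IsPrimitiveRoot ζ₀ (n + m)) (hζ1 : IsPrimitiveRoot ζ₁ e)
    (htame : ∀ ζ : K, ζ ^ (n + m) = 1 → ζ ≠ 1 → v (1 - ζ) = 1)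
    {x y : K} (px : Per (fB β γ n m) x) (py : Per (fB β γ n m) y) (hx0 : x ≠ 0) (hy0 : y ≠ 0)
    (hne : x ≠ y) {ζ ζ' : K} (h : ζ ^ e = 1) (h1 : ζ ≠ 1) (h' : ζ' ^ e = 1) (h1' : ζ' ≠ 1) :
    ∃ g, v (x - ζ * y) = g ^ M * v (x - ζ' * y) := by
  have hn0 : ∀ {ζ : K}, ζ ^ e = 1 → ζ ^ n = 1 := by
    intro ζ h
    obtain ⟨k, rfl⟩ := hen
    rw [pow_mul, h, one_pow]
  have hm0 : ∀ {ζ : K}, ζ ^ e = 1 → ζ ^ m = 1 := by
    intro ζ h
    obtain ⟨k, rfl⟩ := hem
    rw [pow_mul, h, one_pow]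
  have ht : ∀ {ζ : K}, ζ ^ e = 1 → ζ ≠ 1 → v (1 - ζ) = 1 := by
    intro ζ h h1
    refine htame ζ ?_ h1
    rw [pow_add, hn0 h, hm0 h, one_mul]
  rcases lt_trichotomy (v β ^ (m + 1) * v γ ^ (n - 1)) 1 with hJ | hJ | hJ
  · refine ⟨1, ?_⟩
    rw [small_all hβ hγ hn hm hnm hJ px py hy0 (hn0 h) (hm0 h) (ht h h1),
      small_all hβ hγ hn hm hnm hJ px py hy0 (hn0 h') (hm0 h') (ht h' h1'), one_pow, one_mul]
  · have hu : v β = 1 ∧ v γ = 1 := by
      rcases hk with ⟨hk, -⟩ | ⟨hk, -⟩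
      · rw [← hk] at hα
        rw [hα, one_pow, one_mul] at hJ
        exact ⟨hα, (pow_eq_one_iff_of_nonneg zero_le (by omega)).mp hJ⟩
      · rw [← hk] at hα
        rw [hα, one_pow, mul_one] at hJ
        exact ⟨(pow_eq_one_iff_of_nonneg zero_le (by omega)).mp hJ, hα⟩
    refine ⟨1, ?_⟩
    rw [unit_all hu.1 hu.2 hn (by omega) hen hem hζ1 he px py hx0 hy0 hne h h1,
      unit_all hu.1 hu.2 hn (by omega) hen hem hζ1 he px py hx0 hy0 hne h' h1', one_pow, one_mul]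
  · have hM : ∀ z : K, z ≠ 0 → v β * v z ^ (n + m) = v γ →
        ∃ h : Γ, v β * v z ^ (n - 1) = h ^ M := by
      intro z hz hc
      rcases hk with ⟨hk, hMk⟩ | ⟨hk, hMk⟩
      · rw [← hk] at hα
        exact ⟨v z, by rw [hα, one_mul, hMk]⟩
      · rw [← hk] at hα
        refine ⟨(v z)⁻¹, ?_⟩
        rw [hMk, inv_pow]
        refine eq_inv_of_mul_eq_one_left ?_
        rw [mul_assoc, ← pow_add, show n - 1 + (m + 1) = n + m by omega, hc, hα]
    have nx := NZ.of_per (by omega) (by omega) px hx0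
    have ny := NZ.of_per (by omega) (by omega) py hy0
    have hn' := per_NM px py hne
    obtain ⟨g, hg⟩ := big_all hβ hγ hn (by omega) hJ hζ htame hM nx ny hn' (hn0 h) (hm0 h)
    obtain ⟨g', hg'⟩ := big_all hβ hγ hn (by omega) hJ hζ htame hM nx ny hn' (hn0 h') (hm0 h')
    have hM0 : M ≠ 0 := by
      rcases hk with ⟨-, hk⟩ | ⟨-, hk⟩ <;> omega
    have hg0 : g' ≠ 0 := by
      rintro rfl
      rw [zero_pow hM0, zero_mul, Valuation.zero_iff, sub_eq_zero] at hg'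
      apply hn' 1
      rw [Function.iterate_one, hg', fB_root (hn0 h') (hm0 h')]
    refine ⟨g / g', ?_⟩
    rw [hg, hg', div_pow, ← mul_assoc, div_mul_cancel₀ _ (pow_ne_zero _ hg0)]

/-- the equations of a pair -/
lemma pair_eq {x y τ s : K} (hx : x ≠ 0) (hy : y ≠ 0) (h1 : fB β γ n m y = τ * y)
    (h2 : fB β γ n m x = s * y) (hn : 1 ≤ n) (ht : (x / y) ^ (n + m) ≠ 1) :
    β * y ^ (n - 1) = (s * (x / y) ^ m - τ) / ((x / y) ^ (n + m) - 1) ∧
    γ / y ^ (m + 1) = τ - (s * (x / y) ^ m - τ) / ((x / y) ^ (n + m) - 1) := by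
  set t := x / y with htdef
  have ht0 : t ≠ 0 := div_ne_zero hx hy
  have hxt : x = t * y := by rw [htdef, div_mul_cancel₀ _ hy]
  have ht1 : t ^ (n + m) - 1 ≠ 0 := sub_ne_zero.mpr ht
  have e1 : β * y ^ (n - 1) + γ / y ^ (m + 1) = τ := by
    have h3 : (β * y ^ (n - 1) + γ / y ^ (m + 1)) * y = τ * y := by
      rw [← h1, fB]
      obtain ⟨k, rfl⟩ : ∃ k, n = k + 1 := ⟨n - 1, by omega⟩
      rw [Nat.add_sub_cancel]
      field_simp
      ring
    exact mul_right_cancel₀ hy h3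
  have e2 : t ^ n * (β * y ^ (n - 1)) + γ / y ^ (m + 1) / t ^ m = s := by
    have h3 : (t ^ n * (β * y ^ (n - 1)) + γ / y ^ (m + 1) / t ^ m) * y = s * y := by
      rw [← h2, hxt, fB]
      obtain ⟨k, rfl⟩ : ∃ k, n = k + 1 := ⟨n - 1, by omega⟩
      rw [Nat.add_sub_cancel, mul_pow, mul_pow]
      field_simp
      ring
    exact mul_right_cancel₀ hy h3
  set Y := β * y ^ (n - 1) with hY
  have e3 : γ / y ^ (m + 1) = τ - Y := by rw [← e1]; ring
  have e4 : Y = (s * t ^ m - τ) / (t ^ (n + m) - 1) := by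
    rw [eq_div_iff ht1]
    rw [e3] at e2
    have h3 : (t ^ n * Y + (τ - Y) / t ^ m) * t ^ m = s * t ^ m := by rw [e2]
    rw [add_mul, div_mul_cancel₀ _ (pow_ne_zero _ ht0)] at h3
    rw [pow_add]
    linear_combination h3
  exact ⟨e4, by rw [e3, ← e4]⟩

/-- near a root of unity -/
lemma near (hk : Kd α β γ n m M) (hα : v α = 1) (hn : 2 ≤ n)
    {ζ₀ : K} (hζ : IsPrimitiveRoot ζ₀ (n + m))
    (htame : ∀ ζ : K, ζ ^ (n + m) = 1 → ζ ≠ 1 → v (1 - ζ) = 1)
    {y t τ s r : K} (hy : y ≠ 0) (ht : t ^ (n + m) ≠ 1) (hr : r ^ (n + m) = 1)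
    (hτ : v τ ≤ 1) (hs : v s ≤ 1) (hrr : v (s * r ^ m - τ) = 1)
    (e1 : β * y ^ (n - 1) = (s * t ^ m - τ) / (t ^ (n + m) - 1))
    (e2 : γ / y ^ (m + 1) = τ - (s * t ^ m - τ) / (t ^ (n + m) - 1)) (ht1 : v t ≤ 1) :
    ∃ g : Γ, g ≠ 0 ∧ v (t - r) = g ^ M := by
  have hrv : v r = 1 := root_v v (by omega) hr
  have hle : v (t - r) ≤ 1 := (v.map_sub _ _).trans (max_le ht1 hrv.le)
  rcases lt_or_eq_of_le hle with h | h
  swap
  · exact ⟨1, one_ne_zero, by rw [h, one_pow]⟩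
  have ht0 : t ^ (n + m) - 1 ≠ 0 := sub_ne_zero.mpr ht
  have h1 : v (t ^ (n + m) - 1) = v (t - r) := by
    rw [← hr, bad_step v hζ (by omega) htame (by rw [hrv]; exact h), hrv, one_pow, one_mul]
  have h2 : v (s * t ^ m - τ) = 1 := by
    have e3 : s * t ^ m - τ = (s * r ^ m - τ) + s * (t ^ m - r ^ m) := by ring
    have h3 : v (s * (t ^ m - r ^ m)) < 1 := by
      rw [map_mul]
      calc v s * v (t ^ m - r ^ m) ≤ 1 * v (t - r) :=
            mul_le_mul' hs (pow_sub_pow_le v ht1 hrv.le m)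
        _ < 1 := by rw [one_mul]; exact h
    rw [e3, Valuation.map_add_eq_of_lt_left, hrr]
    rw [hrr]; exact h3
  have hpos : v (t - r) ≠ 0 := by
    rw [← h1]; exact (Valuation.ne_zero_iff _).mpr ht0
  have hvy : v y ≠ 0 := (Valuation.ne_zero_iff _).mpr hy
  rcases hk with ⟨hk, hM⟩ | ⟨hk, hM⟩
  · rw [← hk] at hα
    have h3 : v y ^ (n - 1) = (v (t - r))⁻¹ := by
      have := congrArg v e1
      rw [map_mul, map_pow, hα, one_mul, map_div₀, h2, h1, one_div] at this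
      exact this
    refine ⟨(v y)⁻¹, inv_ne_zero hvy, ?_⟩
    rw [hM, inv_pow, h3, inv_inv]
  · rw [← hk] at hα
    have h4 : v (τ - (s * t ^ m - τ) / (t ^ (n + m) - 1)) = (v (t - r))⁻¹ := by
      have e3 : τ - (s * t ^ m - τ) / (t ^ (n + m) - 1) =
          (τ * (t ^ (n + m) - 1) - (s * t ^ m - τ)) / (t ^ (n + m) - 1) := by
        field_simp
      have h5 : v (τ * (t ^ (n + m) - 1) - (s * t ^ m - τ)) = 1 := by
        rw [Valuation.map_sub_eq_of_lt_right, h2]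
        rw [h2, map_mul, h1]
        calc v τ * v (t - r) ≤ 1 * v (t - r) := mul_le_mul' hτ le_rfl
          _ < 1 := by rw [one_mul]; exact h
      rw [e3, map_div₀, h5, h1, one_div]
    have h3 : (v y ^ (m + 1))⁻¹ = (v (t - r))⁻¹ := by
      have := congrArg v e2
      rw [map_div₀, map_pow, hα, one_div, h4] at this
      exact this
    exact ⟨v y, hvy, by rw [hM, inv_injective h3]⟩

end loc

section glob

variable {K : Type} [Field K] [NumberField K] {α : K} {n m M e : ℕ} {ζ₀ ζ₁ : K}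

/-- the finite set of ratios of periodic points -/
def RB (K : Type) [Field K] [NumberField K] (α : K) (n m M e : ℕ) : Set K :=
  {t : K | ∀ v ∉ Sbad K (n + m) ∪ {v : HeightOneSpectrum (𝓞 K) | v.valuation K α ≠ 1},
    ∀ r ∈ rts K e, ∀ r' ∈ rts K e,
      ∃ g, v.valuation K (t - r) = g ^ M * v.valuation K (t - r')}

lemma RB_finite (hα : α ≠ 0) (hn : 2 ≤ n) (hζ1 : IsPrimitiveRoot ζ₁ e) (he : 4 ≤ e)
    (hM : 4 ≤ M) : (RB K α n m M e).Finite := by
  classical
  apply pow_fin_proj K ((Sbad_finite (by omega)).union (finite_unit α hα))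
  have : (rts K e).card = e - 1 := by
    rw [rts, Finset.card_erase_of_mem ((mem_roots' (by omega)).mpr (one_pow e)),
      hζ1.card_nthRootsFinset]
  rw [this]
  left
  omega

lemma RB_mem {β γ : K} (hk : Kd α β γ n m M) (hβ : β ≠ 0) (hγ : γ ≠ 0)
    (hn : 2 ≤ n) (hm : 2 ≤ m)
    (hnm : 2 ≤ (n - 1) * (m - 1)) (hen : e ∣ n) (hem : e ∣ m) (he : 2 ≤ e)
    (hζ : IsPrimitiveRoot ζ₀ (n + m)) (hζ1 : IsPrimitiveRoot ζ₁ e)
    {x y : K} (px : Per (fB β γ n m) x) (py : Per (fB β γ n m) y) (hx0 : x ≠ 0) (hy0 : y ≠ 0)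
    (hne : x ≠ y) : x / y ∈ RB K α n m M e := by
  intro v hv r hr r' hr'
  rw [Set.mem_union, not_or, Set.mem_ofPred_eq, not_not] at hv
  rw [mem_rts he] at hr hr'
  obtain ⟨g, hg⟩ := loc_all hk hv.2 hβ hγ hn hm hnm hen hem he hζ hζ1 (tame_of (by omega) hv.1)
    px py hx0 hy0 hne hr.1 hr.2 hr'.1 hr'.2
  refine ⟨g, ?_⟩
  have e1 : ∀ r : K, x / y - r = (x - r * y) / y := by intro r; field_simp
  rw [e1, e1, map_div₀, map_div₀, hg, mul_div_assoc]

/-- the roots of unity used for the pairs with few values -/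
noncomputable def RW (K : Type) [Field K] (n m : ℕ) (τ s : K) : Finset K := by
  classical exact (nthRootsFinset (n + m) (1 : K)).filter (fun r => s * r ^ m ≠ τ)

omit [NumberField K] in
lemma mem_RW {τ s r : K} (hnm : 2 ≤ n + m) : r ∈ RW K n m τ s ↔
    r ^ (n + m) = 1 ∧ s * r ^ m ≠ τ := by
  classical
  rw [RW, Finset.mem_filter, mem_roots' hnm]

omit [NumberField K] in
lemma RW_card (hζ : IsPrimitiveRoot ζ₀ (n + m)) (hm : 1 ≤ m) {τ s : K}
    (h : ¬ (τ = 0 ∧ s = 0)) : n ≤ (RW K n m τ s).card := by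
  classical
  have h1 : ((nthRootsFinset (n + m) (1 : K)).filter (fun r => ¬ s * r ^ m ≠ τ)).card ≤ m := by
    by_cases hs : s = 0
    · have hτ : τ ≠ 0 := fun h0 => h ⟨h0, hs⟩
      rw [Finset.filter_false_of_mem]
      · simp
      · intro r _ hcon
        rw [not_not, hs, zero_mul] at hcon
        exact hτ hcon.symm
    · have h2 : (nthRootsFinset (n + m) (1 : K)).filter (fun r => ¬ s * r ^ m ≠ τ) ⊆
          (X ^ m - C (τ / s) : K[X]).roots.toFinset := by
        intro r hr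
        rw [Finset.mem_filter, not_not] at hr
        rw [Multiset.mem_toFinset, mem_roots (monic_X_pow_sub_C _ (by omega)).ne_zero, IsRoot.def]
        simp only [eval_sub, eval_pow, eval_X, eval_C]
        rw [sub_eq_zero, eq_div_iff hs, mul_comm]
        exact hr.2
      refine (Finset.card_le_card h2).trans ((Multiset.toFinset_card_le _).trans ?_)
      refine (card_roots' _).trans ?_
      rw [natDegree_X_pow_sub_C]
  have h2 := Finset.card_filter_add_card_filter_not (s := nthRootsFinset (n + m) (1 : K))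
    (fun r => s * r ^ m ≠ τ)
  rw [hζ.card_nthRootsFinset] at h2
  rw [RW]
  omega

/-- the finite set of ratios for the pairs with few values -/
def WB (K : Type) [Field K] [NumberField K] (α : K) (n m M : ℕ) (τ s : K) : Set K :=
  {t : K | ∀ v ∉ (Sbad K (n + m) ∪ {v : HeightOneSpectrum (𝓞 K) | v.valuation K α ≠ 1}) ∪
      (⋃ r ∈ RW K n m τ s, {v : HeightOneSpectrum (𝓞 K) | v.valuation K (s * r ^ m - τ) ≠ 1}),
    ∀ r ∈ RW K n m τ s, ∀ r' ∈ RW K n m τ s,
      ∃ g, v.valuation K (t - r) = g ^ M * v.valuation K (t - r')}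

lemma WB_finite (hα : α ≠ 0) (hn : 3 ≤ n) (hm : 1 ≤ m) (hζ : IsPrimitiveRoot ζ₀ (n + m))
    (hM : 4 ≤ M) {τ s : K} (h : ¬ (τ = 0 ∧ s = 0)) : (WB K α n m M τ s).Finite := by
  classical
  apply pow_fin_proj K (((Sbad_finite (by omega)).union (finite_unit α hα)).union ?_)
  · left
    have := RW_card (n := n) (m := m) hζ hm h
    omega
  · refine (RW K n m τ s).finite_toSet.biUnion fun r hr => finite_unit _ ?_
    exact sub_ne_zero.mpr ((mem_RW (by omega)).mp hr).2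

lemma WB_mem {β γ : K} (hk : Kd α β γ n m M) (hn : 2 ≤ n)
    (hζ : IsPrimitiveRoot ζ₀ (n + m)) {y t τ s : K} (hy : y ≠ 0) (ht : t ^ (n + m) ≠ 1)
    (hτ : τ = 0 ∨ τ ^ (n + m) = 1) (hs : s = 0 ∨ s ^ (n + m) = 1)
    (e1 : β * y ^ (n - 1) = (s * t ^ m - τ) / (t ^ (n + m) - 1))
    (e2 : γ / y ^ (m + 1) = τ - (s * t ^ m - τ) / (t ^ (n + m) - 1)) :
    t ∈ WB K α n m M τ s := by
  intro v hv r hr r' hr'
  simp only [Set.mem_union, Set.mem_iUnion, Set.mem_ofPred_eq, not_or, not_exists, not_not] at hv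
  obtain ⟨⟨h1, h2⟩, h3⟩ := hv
  have htame := tame_of (by omega : 2 ≤ n + m) h1
  have hv1 : ∀ {a : K}, (a = 0 ∨ a ^ (n + m) = 1) → v.valuation K a ≤ 1 := by
    rintro a (rfl | ha)
    · rw [map_zero]; exact zero_le
    · exact (root_v _ (by omega) ha).le
  rcases lt_or_ge 1 (v.valuation K t) with h4 | h4
  · refine ⟨1, ?_⟩
    have key : ∀ r ∈ RW K n m τ s, v.valuation K (t - r) = v.valuation K t := by
      intro r hr
      apply Valuation.map_sub_eq_of_lt_left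
      rw [root_v _ (by omega : 2 ≤ n + m) ((mem_RW (by omega)).mp hr).1]
      exact h4
    rw [key r hr, key r' hr', one_pow, one_mul]
  · obtain ⟨g, hg0, hg⟩ := near hk h2 hn hζ htame hy ht ((mem_RW (by omega)).mp hr).1 (hv1 hτ)
      (hv1 hs) (h3 r hr) e1 e2 h4
    obtain ⟨g', hg0', hg'⟩ := near hk h2 hn hζ htame hy ht ((mem_RW (by omega)).mp hr').1
      (hv1 hτ) (hv1 hs) (h3 r' hr') e1 e2 h4
    refine ⟨g / g', ?_⟩
    rw [hg, hg', div_pow, div_mul_cancel₀ _ (pow_ne_zero _ hg0')]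

/-- the exceptional pairs of coefficients -/
def Ex (K : Type) [Field K] (α : K) (n m : ℕ) (τ t s : K) : Set (K × K) :=
  {c | (c.1 = α ∨ c.2 = α) ∧ c.1 ≠ 0 ∧ c.2 ≠ 0 ∧ ∃ y : K, y ≠ 0 ∧
    c.1 * y ^ (n - 1) = (s * t ^ m - τ) / (t ^ (n + m) - 1) ∧
    c.2 / y ^ (m + 1) = τ - (s * t ^ m - τ) / (t ^ (n + m) - 1)}

lemma Ex_finite (hα : α ≠ 0) (hn : 2 ≤ n) (τ t s : K) : (Ex K α n m τ t s).Finite := by
  classical
  set A := (s * t ^ m - τ) / (t ^ (n + m) - 1) with hA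
  have h1 : ((fun y : K => (α, (τ - A) * y ^ (m + 1))) '' {y : K | y ^ (n - 1) = A / α}).Finite :=
    (pow_eq_finite (by omega) _).image _
  have h2 : ((fun y : K => (A / y ^ (n - 1), α)) '' {y : K | y ^ (m + 1) = α / (τ - A)}).Finite :=
    (pow_eq_finite (by omega) _).image _
  refine (h1.union h2).subset ?_
  rintro ⟨b, c⟩ ⟨h3, hb, hc, y, hy, h4, h5⟩
  simp only at h3 hb hc h4 h5
  rw [← hA] at h4 h5
  have hy1 : y ^ (n - 1) ≠ 0 := pow_ne_zero _ hy
  have hy2 : y ^ (m + 1) ≠ 0 := pow_ne_zero _ hy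
  rcases h3 with h3 | h3
  · left
    refine ⟨y, ?_, ?_⟩
    · rw [Set.mem_ofPred_eq, ← h4, h3, mul_div_cancel_left₀ _ hα]
    · simp only [Prod.mk.injEq]
      exact ⟨h3.symm, by rw [← h5, div_mul_cancel₀ _ hy2]⟩
  · right
    refine ⟨y, ?_, ?_⟩
    · rw [Set.mem_ofPred_eq, ← h5, h3, div_div_cancel₀ hα]
    · simp only [Prod.mk.injEq]
      exact ⟨by rw [← h4, mul_div_cancel_right₀ _ hy1], h3.symm⟩

omit [NumberField K] in
lemma Ex_mem {β γ : K} (hk : Kd α β γ n m M) (hβ : β ≠ 0) (hγ : γ ≠ 0) {y t τ s : K} (hy : y ≠ 0)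
    (e1 : β * y ^ (n - 1) = (s * t ^ m - τ) / (t ^ (n + m) - 1))
    (e2 : γ / y ^ (m + 1) = τ - (s * t ^ m - τ) / (t ^ (n + m) - 1)) :
    (β, γ) ∈ Ex K α n m τ t s :=
  ⟨hk.imp (fun h => h.1) (fun h => h.1), hβ, hγ, y, hy, e1, e2⟩

/-- **The exceptional pairs of coefficients are finite in number.** -/
theorem exc_finite (hα : α ≠ 0) (hn : 4 ≤ n) (hm : 4 ≤ m)
    (hen : e ∣ n) (hem : e ∣ m) (he : 4 ≤ e) (hM : 4 ≤ M)
    (hζ : IsPrimitiveRoot ζ₀ (n + m)) (hζ1 : IsPrimitiveRoot ζ₁ e) :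
    {c : K × K | Kd α c.1 c.2 n m M ∧ c.1 ≠ 0 ∧ c.2 ≠ 0 ∧ ∃ x y : K, Pre (fB c.1 c.2 n m) x ∧
      Pre (fB c.1 c.2 n m) y ∧ x ≠ 0 ∧ y ≠ 0 ∧ x ^ (n + m) ≠ y ^ (n + m)}.Finite := by
  classical
  have hnm : 2 ≤ (n - 1) * (m - 1) := by
    have : 3 * 3 ≤ (n - 1) * (m - 1) := Nat.mul_le_mul (by omega) (by omega)
    omega
  set T : Set K := RB K α n m M e ∪ {1} with hT
  have hTfin : T.Finite := (RB_finite hα (by omega) hζ1 he hM).union (Set.finite_singleton 1)
  set U : Set K := {s : K | s = 0 ∨ s ^ (n + m) = 1} with hU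
  have hUfin : U.Finite := by
    refine ((Set.finite_singleton (0 : K)).union (pow_eq_finite (n := n + m) (by omega) 1)).subset ?_
    rintro s (h | h)
    · left; exact h
    · right; exact h
  have hfin : ((⋃ τ ∈ T, ⋃ t ∈ T, ⋃ s ∈ T, Ex K α n m τ t s) ∪
      (⋃ τ ∈ U, ⋃ s ∈ U, ⋃ t ∈ (if τ = 0 ∧ s = 0 then ∅ else WB K α n m M τ s),
        Ex K α n m τ t s)).Finite := by
    refine Set.Finite.union (hTfin.biUnion fun τ _ => hTfin.biUnion fun t _ =>
      hTfin.biUnion fun s _ => Ex_finite hα (by omega) _ _ _)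
      (hUfin.biUnion fun τ _ => hUfin.biUnion fun s _ => Set.Finite.biUnion ?_
        fun t _ => Ex_finite hα (by omega) _ _ _)
    split_ifs with h
    · exact Set.finite_empty
    · exact WB_finite hα (by omega) (by omega) hζ hM h
  refine hfin.subset ?_
  rintro ⟨β, γ⟩ ⟨hk, hβ, hγ, x, y, px, py, hx0, hy0, hxy⟩
  simp only at hk hβ hγ px py
  by_contra hout
  rw [Set.mem_union, not_or] at hout
  obtain ⟨hout1, hout2⟩ := hout
  set f := fB β γ n m with hf
  have hf0 : f 0 = 0 := fB_zero (by omega) (by omega)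
  -- the generic exclusion
  have ex2 : ∀ {p z τ s : K}, p ≠ 0 → z ≠ 0 → z ^ (n + m) ≠ p ^ (n + m) → f p = τ * p →
      f z = s * p → (τ = 0 ∨ τ ^ (n + m) = 1) → (s = 0 ∨ s ^ (n + m) = 1) →
      ¬ (τ = 0 ∧ s = 0) → False := by
    intro p z τ s hp hz hzp h1 h2 h3 h4 h5
    have ht : (z / p) ^ (n + m) ≠ 1 := by
      rw [div_pow, Ne, div_eq_one_iff_eq (pow_ne_zero _ hp)]
      exact hzp
    obtain ⟨e1, e2⟩ := pair_eq (β := β) (γ := γ) hz hp h1 h2 (by omega) ht
    apply hout2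
    simp only [Set.mem_iUnion]
    refine ⟨τ, h3, s, h4, z / p, ?_, Ex_mem hk hβ hγ hp e1 e2⟩
    rw [if_neg h5]
    exact WB_mem hk (by omega) hζ hp ht h3 h4 e1 e2
  -- two periodic points
  have hper : ∀ {p q : K}, Per f p → Per f q → p ≠ 0 → q ≠ 0 → p ^ (n + m) = q ^ (n + m) := by
    intro p q hp hq hp0 hq0
    by_contra hne
    have key : ∀ {z w : K}, Per f z → Per f w → z ≠ 0 → w ≠ 0 → z / w ∈ T := by
      intro z w hz hw hz0 hw0
      by_cases h : z = w
      · right; rw [h, div_self hw0]; rfl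
      · left
        exact RB_mem hk hβ hγ (by omega) (by omega) hnm hen hem (by omega) hζ hζ1 hz hw hz0 hw0 h
    have hfn : ∀ {z : K}, Per f z → z ≠ 0 → f z ≠ 0 := by
      intro z hz hz0
      exact (NZ.of_per (β := β) (γ := γ) (by omega) (by omega) hz hz0).step.ne
    have ht : (p / q) ^ (n + m) ≠ 1 := by
      rw [div_pow, Ne, div_eq_one_iff_eq (pow_ne_zero _ hq0)]
      exact hne
    obtain ⟨e1, e2⟩ := pair_eq (β := β) (γ := γ) (τ := f q / q) (s := f p / q) hp0 hq0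
      (div_mul_cancel₀ _ hq0).symm (div_mul_cancel₀ _ hq0).symm (by omega) ht
    apply hout1
    simp only [Set.mem_iUnion]
    exact ⟨f q / q, key hq.step hq (hfn hq hq0) hq0, p / q, key hp hq hp0 hq0, f p / q,
      key hp.step hq (hfn hp hp0) hq0, Ex_mem hk hβ hγ hq0 e1 e2⟩
  by_cases hex : ∃ p, Per f p ∧ p ≠ 0
  · -- a nonzero periodic point
    obtain ⟨p, hp, hp0⟩ := hex
    have hfp0 : f p ≠ 0 := (NZ.of_per (β := β) (γ := γ) (by omega) (by omega) hp hp0).step.ne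
    have hτ : (f p / p) ^ (n + m) = 1 := by
      rw [div_pow, hper hp.step hp hfp0 hp0, div_self (pow_ne_zero _ hp0)]
    have main : ∀ {z : K}, Pre f z → z ≠ 0 → z ^ (n + m) = p ^ (n + m) := by
      intro z hz hz0
      by_contra hne
      have hex' : ∃ k, f^[k] z = 0 ∨ (f^[k] z) ^ (n + m) = p ^ (n + m) := by
        obtain ⟨k, hk⟩ := hz.exists_per
        refine ⟨k, ?_⟩
        by_cases h0 : f^[k] z = 0
        · exact Or.inl h0
        · exact Or.inr (hper hk hp h0 hp0)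
      set j := Nat.find hex' with hj
      have hjs := Nat.find_spec hex'
      rw [← hj] at hjs
      have hj0 : j ≠ 0 := by
        intro h0
        rw [h0] at hjs
        rcases hjs with h | h
        · exact hz0 h
        · exact hne h
      obtain ⟨k, hk'⟩ : ∃ k, j = k + 1 := ⟨j - 1, by omega⟩
      have hkn := Nat.find_min hex' (m := k) (by omega)
      rw [not_or] at hkn
      rw [hk', Function.iterate_succ_apply'] at hjs
      refine ex2 (p := p) (z := f^[k] z) (τ := f p / p) (s := f (f^[k] z) / p) hp0 hkn.1 hkn.2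
        (div_mul_cancel₀ _ hp0).symm (div_mul_cancel₀ _ hp0).symm (Or.inr hτ) ?_ ?_
      · rcases hjs with h | h
        · left; rw [h, zero_div]
        · right
          rw [div_pow, h, div_self (pow_ne_zero _ hp0)]
      · intro h
        exact div_ne_zero hfp0 hp0 h.1
    exact hxy ((main px hx0).trans (main py hy0).symm)
  · -- all orbits end in `0`
    push Not at hex
    have hzero : ∀ {z : K}, Pre f z → ∃ k, f^[k] z = 0 := by
      intro z hz
      obtain ⟨k, hk⟩ := hz.exists_per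
      exact ⟨k, hex _ hk⟩
    have hroot : ∀ {z : K}, z ≠ 0 → (f z = 0 ↔ z ^ (n + m) = - γ / β) := by
      intro z hz
      rw [hf, fB, eq_div_iff hβ]
      constructor
      · intro h
        have h1 : (β * z ^ n + γ / z ^ m) * z ^ m = 0 := by rw [h, zero_mul]
        rw [add_mul, div_mul_cancel₀ _ (pow_ne_zero _ hz)] at h1
        rw [pow_add]
        linear_combination h1
      · intro h
        have h1 : (β * z ^ n + γ / z ^ m) * z ^ m = 0 := by
          rw [add_mul, div_mul_cancel₀ _ (pow_ne_zero _ hz)]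
          rw [pow_add] at h
          linear_combination h
        exact (mul_eq_zero.mp h1).resolve_right (pow_ne_zero _ hz)
    have main : ∀ {z : K}, Pre f z → z ≠ 0 → z ^ (n + m) = - γ / β := by
      intro z hz hz0
      by_contra hne
      have hex' : ∃ k, f^[k] z = 0 ∨ (f^[k] z) ^ (n + m) = - γ / β := by
        obtain ⟨k, hk⟩ := hzero hz
        exact ⟨k, Or.inl hk⟩
      set j := Nat.find hex' with hj
      have hjs := Nat.find_spec hex'
      rw [← hj] at hjs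
      have hj0 : j ≠ 0 := by
        intro h0
        rw [h0] at hjs
        rcases hjs with h | h
        · exact hz0 h
        · exact hne h
      obtain ⟨k, hk'⟩ : ∃ k, j = k + 1 := ⟨j - 1, by omega⟩
      have hkn := Nat.find_min hex' (m := k) (by omega)
      rw [not_or] at hkn
      rw [hk', Function.iterate_succ_apply'] at hjs
      have hfk : f (f^[k] z) ≠ 0 := fun h0 => hkn.2 ((hroot hkn.1).mp h0)
      have hp : (f (f^[k] z)) ^ (n + m) = - γ / β := hjs.resolve_left hfk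
      refine ex2 (p := f (f^[k] z)) (z := f^[k] z) (τ := 0) (s := 1) hfk hkn.1 ?_ ?_ ?_
        (Or.inl rfl) (Or.inr (one_pow _)) ?_
      · rw [hp]; exact hkn.2
      · rw [zero_mul]; exact (hroot hfk).mpr hp
      · rw [one_mul]
      · intro h; exact one_ne_zero h.2
    exact hxy ((main px hx0).trans (main py hy0).symm)

end glob

end Pool.Agent.H422.BN
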