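import Mathlib
import Pool.Agent.H422.BN.Glob
import Pool.Agent.H422.MR.North

/-!
# `z ↦ α z ^ a + l z ^ b` over a number field, all parameters `l`
-/

set_option autoImplicit false

open Polynomial IsDedekindDomain NumberField OnePoint

namespace Pool.Agent.H422.BN

open Pool.Agent.H422.HE Pool.Agent.H422.UC Pool.Agent.H422.MF Pool.Agent.H422.MR

lemma fB_map {K L : Type*} [Field K] [Field L] (φ : K →+* L) (β γ : K) (n m : ℕ) (z : K) :
    fB (φ β) (φ γ) n m (φ z) = φ (fB β γ n m z) := by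
  simp [fB]

lemma fB_iter_map {K L : Type*} [Field K] [Field L] (φ : K →+* L) (β γ : K) (n m : ℕ) (z : K)
    (k : ℕ) : (fB (φ β) (φ γ) n m)^[k] (φ z) = φ ((fB β γ n m)^[k] z) := by
  induction k with
  | zero => rfl
  | succ k ih => rw [Function.iterate_succ_apply', Function.iterate_succ_apply', ih, fB_map]

lemma pre_map {K L : Type*} [Field K] [Field L] (φ : K →+* L) {β γ : K} {n m : ℕ} {z : K}
    (h : Pre (fB β γ n m) z) : Pre (fB (φ β) (φ γ) n m) (φ z) := by
  obtain ⟨i, j, hij, he⟩ := h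
  exact ⟨i, j, hij, by rw [fB_iter_map, fB_iter_map, he]⟩

/-- **The exceptional pairs, any number field.** -/
theorem main_fin (K : Type) [Field K] [NumberField K] {α : K} {n m M : ℕ} (hα : α ≠ 0)
    (hg : 4 ≤ Nat.gcd n m) (hn : 1 ≤ n) (hm : 1 ≤ m) (hM : 4 ≤ M) :
    {c : K × K | Kd α c.1 c.2 n m M ∧ c.1 ≠ 0 ∧ c.2 ≠ 0 ∧ ∃ x y : K, Pre (fB c.1 c.2 n m) x ∧
      Pre (fB c.1 c.2 n m) y ∧ x ≠ 0 ∧ y ≠ 0 ∧ x ^ (n + m) ≠ y ^ (n + m)}.Finite := by
  classical
  have hn4 : 4 ≤ n := hg.trans (Nat.gcd_le_left _ hn)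
  have hm4 : 4 ≤ m := hg.trans (Nat.gcd_le_right _ hm)
  have : NeZero (n + m) := ⟨by omega⟩
  have : NeZero ((n + m : ℕ) : K) := ⟨Nat.cast_ne_zero.mpr (by omega)⟩
  set L := CyclotomicField (n + m) K with hL
  have hζ := IsCyclotomicExtension.zeta_spec (n + m) K L
  set φ : K →+* L := algebraMap K L with hφ
  set e := Nat.gcd n m with he
  obtain ⟨q, hq⟩ : e ∣ n + m := (Nat.dvd_add (Nat.gcd_dvd_left _ _) (Nat.gcd_dvd_right _ _))
  have hζ1 := hζ.pow (by omega : 0 < n + m) (show n + m = q * e by rw [hq, Nat.mul_comm])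
  have hfin := exc_finite (K := L) (α := φ α) (n := n) (m := m) (M := M)
    ((map_ne_zero φ).mpr hα) hn4 hm4 (Nat.gcd_dvd_left _ _) (Nat.gcd_dvd_right _ _) hg hM hζ hζ1
  have hinj : Function.Injective (fun c : K × K => (φ c.1, φ c.2)) := by
    rintro ⟨a, b⟩ ⟨c, d⟩ h
    simp only [Prod.mk.injEq] at h
    rw [φ.injective h.1, φ.injective h.2]
  refine (hfin.preimage (f := fun c : K × K => (φ c.1, φ c.2)) hinj.injOn).subset ?_
  rintro ⟨β, γ⟩ ⟨hk, hβ, hγ, x, y, px, py, hx, hy, hxy⟩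
  refine ⟨?_, (map_ne_zero φ).mpr hβ, (map_ne_zero φ).mpr hγ, φ x, φ y, pre_map φ px, pre_map φ py,
    (map_ne_zero φ).mpr hx, (map_ne_zero φ).mpr hy, ?_⟩
  · rcases hk with ⟨h, h'⟩ | ⟨h, h'⟩
    · left; exact ⟨congrArg φ h, h'⟩
    · right; exact ⟨congrArg φ h, h'⟩
  · rw [← map_pow, ← map_pow]
    exact fun h => hxy (φ.injective h)

section maps

variable {K : Type*} [Field K]

/-- The self-map `z ↦ α z ^ a + l z ^ b` of `P¹(K)`, for integers `a`, `b` of opposite signs: `0` and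
`∞` are mapped to `∞`. -/
noncomputable def bin (α l : K) (a b : ℤ) : OnePoint K → OnePoint K
  | ∞ => ∞
  | (z : K) => by classical exact if z = 0 then ∞ else ((α * z ^ a + l * z ^ b : K) : OnePoint K)

lemma bin_infty (α l : K) (a b : ℤ) : bin α l a b ∞ = ∞ := rfl

lemma bin_zero (α l : K) (a b : ℤ) : bin α l a b ((0 : K) : OnePoint K) = ∞ := by
  simp [bin]

lemma bin_coe (α l : K) (a b : ℤ) {z : K} (hz : z ≠ 0) :
    bin α l a b (z : OnePoint K) = ((α * z ^ a + l * z ^ b : K) : OnePoint K) := by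
  simp [bin, hz]

/-- the same with natural exponents -/
noncomputable def bn (β γ : K) (n m : ℕ) : OnePoint K → OnePoint K
  | ∞ => ∞
  | (z : K) => by classical exact if z = 0 then ∞ else ((fB β γ n m z : K) : OnePoint K)

lemma bn_infty (β γ : K) (n m : ℕ) : bn β γ n m ∞ = ∞ := rfl

lemma bn_zero (β γ : K) (n m : ℕ) : bn β γ n m ((0 : K) : OnePoint K) = ∞ := by
  simp [bn]

lemma bn_coe (β γ : K) (n m : ℕ) {z : K} (hz : z ≠ 0) :
    bn β γ n m (z : OnePoint K) = ((fB β γ n m z : K) : OnePoint K) := by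
  simp [bn, hz]

/-- collapsing `∞` to `0` -/
def col : OnePoint K → K
  | ∞ => 0
  | (z : K) => z

@[simp] lemma col_infty : col (∞ : OnePoint K) = 0 := rfl
@[simp] lemma col_coe (z : K) : col (z : OnePoint K) = z := rfl

lemma col_bn {β γ : K} {n m : ℕ} (hn : 1 ≤ n) (hm : 1 ≤ m) (p : OnePoint K) :
    col (bn β γ n m p) = fB β γ n m (col p) := by
  induction p using OnePoint.rec with
  | infty => rw [bn_infty, col_infty, fB_zero hn hm]
  | coe z =>
    by_cases hz : z = 0
    · rw [hz, bn_zero, col_infty, col_coe, fB_zero hn hm]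
    · rw [bn_coe _ _ _ _ hz, col_coe, col_coe]

lemma pre_col {β γ : K} {n m : ℕ} (hn : 1 ≤ n) (hm : 1 ≤ m) {p : OnePoint K}
    (h : Pre (bn β γ n m) p) : Pre (fB β γ n m) (col p) := by
  have key : ∀ k, (fB β γ n m)^[k] (col p) = col ((bn β γ n m)^[k] p) := by
    intro k
    induction k with
    | zero => rfl
    | succ k ih => rw [Function.iterate_succ_apply', Function.iterate_succ_apply', ih, col_bn hn hm]
  obtain ⟨i, j, hij, he⟩ := h
  exact ⟨i, j, hij, by rw [key, key, he]⟩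

lemma bn_rat {β γ : K} {n m : ℕ} (hβ : β ≠ 0) (hn : 1 ≤ n) (hm : 1 ≤ m) :
    bn β γ n m = rat (C β * X ^ (n + m) + C γ) (X ^ m) := by
  have hP : (C β * X ^ (n + m) + C γ : K[X]).natDegree = n + m := by
    rw [natDegree_add_C, natDegree_C_mul_X_pow _ _ hβ]
  funext p
  induction p using OnePoint.rec with
  | infty =>
    rw [bn_infty, rat_infty, hP, natDegree_X_pow, max_eq_left (by omega)]
    have : (X ^ m : K[X]).coeff (n + m) = 0 := by
      rw [coeff_X_pow, if_neg (by omega)]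
    rw [this, pt_zero]
  | coe z =>
    rw [rat_coe]
    by_cases hz : z = 0
    · rw [hz, bn_zero, eval_pow, eval_X, zero_pow (by omega), pt_zero]
    · rw [bn_coe _ _ _ _ hz, eval_pow, eval_X, pt_ne (pow_ne_zero _ hz)]
      congr 1
      simp only [fB, eval_add, eval_mul, eval_C, eval_pow, eval_X]
      rw [pow_add]
      field_simp

lemma bn_coprime {β γ : K} {n m : ℕ} (hγ : γ ≠ 0) (hm : 1 ≤ m) :
    IsCoprime (C β * X ^ (n + m) + C γ : K[X]) (X ^ m) := by
  apply IsCoprime.pow_right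
  refine ⟨C γ⁻¹, - (C γ⁻¹ * C β * X ^ (n + m - 1)), ?_⟩
  have h1 : (X : K[X]) ^ (n + m) = X ^ (n + m - 1) * X := by
    rw [← pow_succ]; congr 1; omega
  have h2 : (C γ⁻¹ * C γ : K[X]) = 1 := by
    rw [← C_mul, inv_mul_cancel₀ hγ, C_1]
  rw [h1]
  linear_combination h2

end maps

/-- **All preperiodic points**, natural exponents. -/
theorem main_nat (K : Type) [Field K] [NumberField K] {α : K} {n m M : ℕ} (hα : α ≠ 0)
    (hg : 4 ≤ Nat.gcd n m) (hn : 1 ≤ n) (hm : 1 ≤ m) (hM : 4 ≤ M) :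
    ∃ (E : Finset (K × K)) (B : ℕ), ∀ β γ : K, Kd α β γ n m M → β ≠ 0 → γ ≠ 0 →
      (∀ T : Finset (OnePoint K), (∀ p ∈ T, Pre (bn β γ n m) p) → T.card ≤ B) ∧
      ((β, γ) ∉ E → ∀ x y : K, x ≠ 0 → y ≠ 0 → Pre (bn β γ n m) (x : OnePoint K) →
        Pre (bn β γ n m) (y : OnePoint K) → x ^ (n + m) = y ^ (n + m)) := by
  classical
  have hn4 : 4 ≤ n := hg.trans (Nat.gcd_le_left _ hn)
  have hm4 : 4 ≤ m := hg.trans (Nat.gcd_le_right _ hm)
  set E := (main_fin K hα hg hn hm hM).toFinset with hE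
  have hnor : ∀ β γ : K, β ≠ 0 → γ ≠ 0 → {p : OnePoint K | Pre (bn β γ n m) p}.Finite := by
    intro β γ hβ hγ
    rw [bn_rat hβ hn hm]
    apply northcott_rat (bn_coprime hγ hm)
    refine le_trans ?_ (le_max_left _ _)
    rw [natDegree_add_C, natDegree_C_mul_X_pow _ _ hβ]
    omega
  set c : K × K → ℕ := fun c => if h : c.1 ≠ 0 ∧ c.2 ≠ 0 then (hnor c.1 c.2 h.1 h.2).toFinset.card
    else 0 with hc
  have hEx : ∀ β γ : K, Kd α β γ n m M → β ≠ 0 → γ ≠ 0 → (β, γ) ∉ E → ∀ x y : K, x ≠ 0 → y ≠ 0 →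
      Pre (bn β γ n m) (x : OnePoint K) → Pre (bn β γ n m) (y : OnePoint K) →
      x ^ (n + m) = y ^ (n + m) := by
    intro β γ hk hβ hγ hout x y hx hy px py
    by_contra hne
    apply hout
    rw [hE, Set.Finite.mem_toFinset]
    exact ⟨hk, hβ, hγ, x, y, pre_col hn hm px, pre_col hn hm py, hx, hy, hne⟩
  refine ⟨E, ∑ q ∈ E, c q + (n + m + 2), fun β γ hk hβ hγ => ⟨fun T hT => ?_,
    hEx β γ hk hβ hγ⟩⟩
  by_cases hin : (β, γ) ∈ E
  · have h2 : T ⊆ (hnor β γ hβ hγ).toFinset := by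
      intro x hx
      rw [Set.Finite.mem_toFinset]
      exact hT x hx
    have h3 : T.card ≤ ∑ q ∈ E, c q := by
      calc T.card ≤ (hnor β γ hβ hγ).toFinset.card := Finset.card_le_card h2
        _ = c (β, γ) := by simp only [hc]; rw [dif_pos ⟨hβ, hγ⟩]
        _ ≤ _ := Finset.single_le_sum (f := c) (fun _ _ => Nat.zero_le _) hin
    omega
  · -- at most one power
    have hcard : T.card ≤ n + m + 2 := by
      by_cases hex : ∃ y : K, y ≠ 0 ∧ Pre (bn β γ n m) (y : OnePoint K)
      · obtain ⟨y, hy, py⟩ := hex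
        have hsub : T ⊆ {∞, ((0 : K) : OnePoint K)} ∪
            ((X ^ (n + m) - C (y ^ (n + m)) : K[X]).roots.toFinset.image
              (fun z : K => (z : OnePoint K))) := by
          intro p hp
          have hpp := hT p hp
          induction p using OnePoint.rec with
          | infty => simp
          | coe x =>
            by_cases hx : x = 0
            · rw [hx]; simp
            · apply Finset.mem_union_right
              refine Finset.mem_image.mpr ⟨x, ?_, rfl⟩
              rw [Multiset.mem_toFinset, mem_roots (monic_X_pow_sub_C _ (by omega)).ne_zero,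
                IsRoot.def]
              simp only [eval_sub, eval_pow, eval_X, eval_C]
              rw [sub_eq_zero]
              exact hEx β γ hk hβ hγ hin x y hx hy hpp py
        refine (Finset.card_le_card hsub).trans ((Finset.card_union_le _ _).trans ?_)
        have h1 : ({∞, ((0 : K) : OnePoint K)} : Finset (OnePoint K)).card ≤ 2 := Finset.card_le_two
        have h2 : ((X ^ (n + m) - C (y ^ (n + m)) : K[X]).roots.toFinset.image
              (fun z : K => (z : OnePoint K))).card ≤ n + m := by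
          refine Finset.card_image_le.trans ((Multiset.toFinset_card_le _).trans ?_)
          refine (card_roots' _).trans ?_
          rw [natDegree_X_pow_sub_C]
        omega
      · push Not at hex
        have hsub : T ⊆ {∞, ((0 : K) : OnePoint K)} := by
          intro p hp
          have hpp := hT p hp
          induction p using OnePoint.rec with
          | infty => simp
          | coe x =>
            by_cases hx : x = 0
            · rw [hx]; simp
            · exact absurd hpp (hex x hx)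
        refine (Finset.card_le_card hsub).trans ?_
        have h1 : ({∞, ((0 : K) : OnePoint K)} : Finset (OnePoint K)).card ≤ 2 := Finset.card_le_two
        omega
    omega

/-- **All preperiodic points of `z ↦ α z ^ a + l z ^ b`, all parameters `l`.** -/
theorem main_int (K : Type) [Field K] [NumberField K] {α : K} (hα : α ≠ 0) {a b : ℤ}
    (hab : a * b < 0) (hg : 4 ≤ Int.gcd a b) (ha : a ≠ 4) :
    ∃ (E : Finset K) (B : ℕ), ∀ l : K, l ≠ 0 →
      (∀ T : Finset (OnePoint K), (∀ p ∈ T, Pre (bin α l a b) p) → T.card ≤ B) ∧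
      (l ∉ E → ∀ x y : K, x ≠ 0 → y ≠ 0 → Pre (bin α l a b) (x : OnePoint K) →
        Pre (bin α l a b) (y : OnePoint K) → x ^ (a - b) = y ^ (a - b)) := by
  classical
  rcases lt_trichotomy a 0 with h | h | h
  · -- `a < 0 < b`
    have hb : 0 < b := by
      by_contra hcon
      rw [not_lt] at hcon
      exact absurd hab (not_lt.mpr (mul_nonneg_of_nonpos_of_nonpos h.le hcon))
    obtain ⟨m, rfl⟩ : ∃ m : ℕ, a = -(m : ℤ) := ⟨(-a).toNat, by omega⟩
    obtain ⟨n, rfl⟩ : ∃ n : ℕ, b = (n : ℤ) := ⟨b.toNat, by omega⟩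
    have hg' : 4 ≤ Nat.gcd n m := by
      rw [Int.gcd_def, Int.natAbs_neg, Int.natAbs_natCast, Int.natAbs_natCast] at hg
      rwa [Nat.gcd_comm]
    have hm4 : 4 ≤ m := hg'.trans (Nat.gcd_le_right _ (by omega))
    obtain ⟨E, B, hEB⟩ := main_nat K (α := α) (n := n) (m := m) (M := m + 1) hα hg' (by omega)
      (by omega) (by omega)
    refine ⟨E.image Prod.fst, B, fun l hl => ?_⟩
    have hfun : bin α l (-(m : ℤ)) (n : ℤ) = bn l α n m := by
      funext p
      induction p using OnePoint.rec with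
      | infty => rfl
      | coe z =>
        by_cases hz : z = 0
        · rw [hz, bin_zero, bn_zero]
        · rw [bin_coe _ _ _ _ hz, bn_coe _ _ _ _ hz]
          congr 1
          rw [fB, zpow_neg, zpow_natCast, zpow_natCast]
          ring
    obtain ⟨h1, h2⟩ := hEB l α (Or.inr ⟨rfl, rfl⟩) hl hα
    rw [hfun]
    refine ⟨h1, fun hlE x y hx hy px py => ?_⟩
    have h3 := h2 (fun hmem => hlE (Finset.mem_image.mpr ⟨_, hmem, rfl⟩)) x y hx hy px py
    have h4 : (-(m : ℤ) - (n : ℤ)) = -((n + m : ℕ) : ℤ) := by push_cast; ring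
    rw [h4, zpow_neg, zpow_neg, zpow_natCast, zpow_natCast, h3]
  · rw [h, zero_mul] at hab
    exact absurd hab (lt_irrefl _)
  · -- `b < 0 < a`
    have hb : b < 0 := by
      by_contra hcon
      rw [not_lt] at hcon
      exact absurd hab (not_lt.mpr (mul_nonneg h.le hcon))
    obtain ⟨n, rfl⟩ : ∃ n : ℕ, a = (n : ℤ) := ⟨a.toNat, by omega⟩
    obtain ⟨m, rfl⟩ : ∃ m : ℕ, b = -(m : ℤ) := ⟨(-b).toNat, by omega⟩
    have hg' : 4 ≤ Nat.gcd n m := by
      rw [Int.gcd_def, Int.natAbs_neg, Int.natAbs_natCast, Int.natAbs_natCast] at hg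
      exact hg
    have hn4 : 4 ≤ n := hg'.trans (Nat.gcd_le_left _ (by omega))
    obtain ⟨E, B, hEB⟩ := main_nat K (α := α) (n := n) (m := m) (M := n - 1) hα hg' (by omega)
      (by omega) (by omega)
    refine ⟨E.image Prod.snd, B, fun l hl => ?_⟩
    have hfun : bin α l (n : ℤ) (-(m : ℤ)) = bn α l n m := by
      funext p
      induction p using OnePoint.rec with
      | infty => rfl
      | coe z =>
        by_cases hz : z = 0
        · rw [hz, bin_zero, bn_zero]
        · rw [bin_coe _ _ _ _ hz, bn_coe _ _ _ _ hz]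
          congr 1
          rw [fB, zpow_neg, zpow_natCast, zpow_natCast]
          ring
    obtain ⟨h1, h2⟩ := hEB α l (Or.inl ⟨rfl, rfl⟩) hα hl
    rw [hfun]
    refine ⟨h1, fun hlE x y hx hy px py => ?_⟩
    have h3 := h2 (fun hmem => hlE (Finset.mem_image.mpr ⟨_, hmem, rfl⟩)) x y hx hy px py
    have h4 : ((n : ℤ) - -(m : ℤ)) = ((n + m : ℕ) : ℤ) := by push_cast; ring
    rw [h4, zpow_natCast, zpow_natCast, h3]

end Pool.Agent.H422.BN
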