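import Mathlib
import Pool.Agent.H422.MR.LocB
import Pool.Agent.H422.BN.Loc

/-!
# `z ↦ c + α / z ^ m` at one nonarchimedean place
-/

set_option autoImplicit false

open Polynomial OnePoint

namespace Pool.Agent.H422.BN

open Pool.Agent.H422.HE Pool.Agent.H422.UC Pool.Agent.H422.MF Pool.Agent.H422.MR

section defs

variable {K : Type*} [Field K]

/-- the map `z ↦ c + α / z ^ m` of `P¹(K)` -/
noncomputable def fN (c α : K) (m : ℕ) (p : OnePoint K) : OnePoint K :=
  pt (c * nu p ^ m + α * de p ^ m) (nu p ^ m)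

/-- the same in the affine coordinate -/
def gN (c α : K) (m : ℕ) : K → K := fun z => c + α / z ^ m

variable {c α : K} {m : ℕ}

lemma fN_infty (hm : 1 ≤ m) : fN c α m ∞ = ((c : K) : OnePoint K) := by
  rw [fN, nu_infty, de_infty, one_pow, zero_pow (by omega), mul_one, mul_zero, add_zero,
    pt_ne one_ne_zero, div_one]

lemma fN_zero (hm : 1 ≤ m) : fN c α m ((0 : K) : OnePoint K) = ∞ := by
  rw [fN, nu_coe, zero_pow (by omega), pt_zero]

lemma fN_coe {z : K} (hz : z ≠ 0) : fN c α m (z : OnePoint K) = ((gN c α m z : K) : OnePoint K) := by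
  rw [fN, nu_coe, de_coe, one_pow, mul_one, pt_ne (pow_ne_zero _ hz), gN]
  congr 1
  field_simp

lemma fN_root {ζ z : K} (h : ζ ^ m = 1) : fN c α m ((ζ * z : K) : OnePoint K) =
    fN c α m (z : OnePoint K) := by
  rw [fN, fN, nu_coe, nu_coe, de_coe, de_coe, mul_pow, h, one_mul]

end defs

section loc

variable {K : Type*} [Field K] {Γ : Type*} [LinearOrderedCommGroupWithZero Γ] {v : Valuation K Γ}
  {c α : K} {m : ℕ}

/-! ### `v c ≤ 1` -/

lemma nrm_pow (hα : v α = 1) (hc : v c ≤ 1) (hm : 1 ≤ m) (p : OnePoint K) :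
    max (v (c * nu p ^ m + α * de p ^ m)) (v (nu p ^ m)) = nrm v p ^ m := by
  have h1 : v (c * nu p ^ m) ≤ v (nu p) ^ m := by
    rw [map_mul, map_pow]
    calc v c * v (nu p) ^ m ≤ 1 * v (nu p) ^ m := mul_le_mul' hc le_rfl
      _ = _ := one_mul _
  have h2 : v (α * de p ^ m) = v (de p) ^ m := by rw [map_mul, map_pow, hα, one_mul]
  rw [nrm, map_pow]
  rcases le_or_gt (v (de p)) (v (nu p)) with h | h
  · rw [max_eq_left h, max_eq_right]
    refine (v.map_add _ _).trans (max_le h1 ?_)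
    rw [h2]
    exact pow_le_pow_left₀ zero_le h m
  · have h3 : v (nu p) ^ m < v (de p) ^ m := pow_lt_pow_left₀ h zero_le (by omega)
    rw [max_eq_right h.le, Valuation.map_add_eq_of_lt_right, h2, max_eq_left h3.le]
    rw [h2]
    exact lt_of_le_of_lt h1 h3

/-- the product formula for chordal distances -/
lemma dl_fN (hα : v α = 1) (hc : v c ≤ 1) (hm : 2 ≤ m) {ζ₀ : K} (hζ : IsPrimitiveRoot ζ₀ m)
    (p q : OnePoint K) : dl v 1 (fN c α m p) (fN c α m q) =
      ∏ ζ ∈ nthRootsFinset m (1 : K), dl v ζ p q := by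
  classical
  have hα0 : α ≠ 0 := by rintro rfl; rw [map_zero] at hα; exact zero_ne_one hα
  have hne : ∀ p : OnePoint K, c * nu p ^ m + α * de p ^ m ≠ 0 ∨ nu p ^ m ≠ 0 := by
    intro p
    by_cases h : nu p ^ m = 0
    · left
      have h1 : nu p = 0 := pow_eq_zero_iff (by omega) |>.mp h
      have h2 : de p ≠ 0 := (nu_de_ne p).resolve_left (not_not.mpr h1)
      rw [h, mul_zero, zero_add]
      exact mul_ne_zero hα0 (pow_ne_zero _ h2)
    · exact Or.inr h
  rw [fN, fN, dl_pt (hne p) (hne q), nrm_pow hα hc (by omega), nrm_pow hα hc (by omega)]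
  have e1 : (c * nu p ^ m + α * de p ^ m) * nu q ^ m - (c * nu q ^ m + α * de q ^ m) * nu p ^ m =
      -(α * ((nu p * de q) ^ m - (nu q * de p) ^ m)) := by
    rw [mul_pow, mul_pow]; ring
  rw [e1, Valuation.map_neg, map_mul, hα, one_mul, prod_eq v hζ hm]
  have e2 : ∏ ζ ∈ nthRootsFinset m (1 : K), dl v ζ p q =
      (∏ ζ ∈ nthRootsFinset m (1 : K), v (nu p * de q - ζ * (nu q * de p))) /
      ∏ ζ ∈ nthRootsFinset m (1 : K), (nrm v p * nrm v q) := by
    rw [← Finset.prod_div_distrib]; rfl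
  rw [e2, Finset.prod_const, hζ.card_nthRootsFinset, mul_pow]

/-- good reduction: periodic points -/
theorem good_neg (hα : v α = 1) (hc : v c ≤ 1) (hm : 2 ≤ m) {ζ₀ : K} (hζ : IsPrimitiveRoot ζ₀ m)
    {p q : OnePoint K} (hp : Per (fN c α m) p) (hq : Per (fN c α m) q) (hne : p ≠ q)
    {ζ : K} (h1 : ζ ^ m = 1) (h2 : ζ ≠ 1) : dl v ζ p q = 1 := by
  classical
  have hroot : ∀ ζ ∈ nthRootsFinset m (1 : K), v ζ = 1 := fun ζ hζ' =>
    root_v v hm ((mem_roots' hm).mp hζ')
  have hpr : ∀ p q : OnePoint K, ∏ ζ ∈ nthRootsFinset m (1 : K), dl v ζ p q =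
      dl v 1 p q * ∏ ζ ∈ (nthRootsFinset m (1 : K)).erase 1, dl v ζ p q := fun p q =>
    (Finset.mul_prod_erase _ (fun ζ => dl v ζ p q) ((mem_roots' hm).mpr (one_pow m))).symm
  have hQ : ∀ p q : OnePoint K, ∏ ζ ∈ (nthRootsFinset m (1 : K)).erase 1, dl v ζ p q ≤ 1 :=
    fun p q => Finset.prod_le_one' fun ζ hζ' => dl_le (hroot ζ (Finset.mem_of_mem_erase hζ')) _ _
  have h3 := per_step (F := fN c α m) (δ := fun p q => dl v 1 p q) (C := fun _ => True)
    (fun _ _ => trivial) (fun p q _ _ => by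
      rw [dl_fN hα hc hm hζ, hpr]
      calc _ ≤ dl v 1 p q * 1 := mul_le_mul' le_rfl (hQ p q)
        _ = _ := mul_one _) trivial trivial hp hq
  rw [dl_fN hα hc hm hζ, hpr] at h3
  have hδ : dl v 1 p q ≠ 0 := fun h0 => hne (dl_one_eq_zero h0)
  have h5 : ∏ ζ ∈ (nthRootsFinset m (1 : K)).erase 1, dl v ζ p q = 1 := by
    refine le_antisymm (hQ p q) ?_
    have h6 : dl v 1 p q * 1 ≤ dl v 1 p q * ∏ ζ ∈ (nthRootsFinset m (1 : K)).erase 1,
        dl v ζ p q := by rw [mul_one]; exact h3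
    exact (mul_le_mul_iff_right₀ (zero_lt_iff.mpr hδ)).mp h6
  exact all_eq_one _ _ (fun ζ' hζ' => dl_le (hroot ζ' (Finset.mem_of_mem_erase hζ')) _ _) h5 ζ
    (Finset.mem_erase.mpr ⟨h2, (mem_roots' hm).mpr h1⟩)

/-! ### `1 < v c` -/

section big

/-- the absorbing set -/
def AN (v : Valuation K Γ) (c : K) (m : ℕ) : OnePoint K → Prop
  | ∞ => True
  | (z : K) => 1 < v c * v z ^ m

lemma AN_infty : AN v c m ∞ := trivial
lemma AN_coe (z : K) : AN v c m (z : OnePoint K) ↔ 1 < v c * v z ^ m := Iff.rfl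

variable (hα : v α = 1) (hc : 1 < v c) (hm : 2 ≤ m)

include hα hc hm in
lemma AN_step {p : OnePoint K} (hp : AN v c m p) :
    ∃ z : K, fN c α m p = z ∧ v z = v c := by
  induction p using OnePoint.rec with
  | infty => exact ⟨c, fN_infty (by omega), rfl⟩
  | coe z =>
    rw [AN_coe] at hp
    have hz : z ≠ 0 := by
      rintro rfl
      rw [map_zero, zero_pow (by omega), mul_zero] at hp
      exact absurd hp (not_lt.mpr zero_le)
    refine ⟨_, fN_coe hz, ?_⟩
    have h1 : v (α / z ^ m) < v c := by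
      rw [map_div₀, map_pow, hα, div_lt_iff₀ (pow_pos (vpos hz) _)]
      exact hp
    rw [gN, Valuation.map_add_eq_of_lt_left _ h1]

include hc in
lemma AN_of_big {z : K} (hz : v c ≤ v z) : AN v c m (z : OnePoint K) := by
  rw [AN_coe]
  calc 1 < v c := hc
    _ = v c * 1 := (mul_one _).symm
    _ ≤ v c * v z ^ m := mul_le_mul' le_rfl (one_le_pow₀ (hc.le.trans hz))

include hα hc hm in
lemma AN_abs (p : OnePoint K) (hp : AN v c m p) : AN v c m (fN c α m p) := by
  obtain ⟨z, hz, hz1⟩ := AN_step hα hc hm hp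
  rw [hz]
  exact AN_of_big hc hz1.ge

include hα hc hm in
lemma AN_not {z : K} (h1 : ¬ AN v c m (z : OnePoint K))
    (h2 : ¬ AN v c m (fN c α m (z : OnePoint K))) : v c * v z ^ m = 1 := by
  rw [AN_coe, not_lt] at h1
  refine le_antisymm h1 ?_
  by_contra hcon
  rw [not_le] at hcon
  apply h2
  by_cases hz : z = 0
  · rw [hz, fN_zero (by omega)]; exact AN_infty
  · rw [fN_coe hz]
    have h3 : v c < v (α / z ^ m) := by
      rw [map_div₀, map_pow, hα, lt_div_iff₀ (pow_pos (vpos hz) _)]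
      exact hcon
    apply AN_of_big hc
    rw [gN, Valuation.map_add_eq_of_lt_right _ h3]
    exact h3.le

/-- non-absorbed points -/
def CN (v : Valuation K Γ) (c α : K) (m : ℕ) (z : K) : Prop :=
  Pre (fN c α m) (z : OnePoint K) ∧ ∀ n, ¬ AN v c m ((fN c α m)^[n] (z : OnePoint K))

include hα hc hm in
lemma CN_val {z : K} (hz : CN v c α m z) : v c * v z ^ m = 1 :=
  AN_not hα hc hm (hz.2 0) (hz.2 1)

include hα hc hm in
lemma CN_ne {z : K} (hz : CN v c α m z) : z ≠ 0 := by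
  rintro rfl
  have := CN_val hα hc hm hz
  rw [map_zero, zero_pow (by omega), mul_zero] at this
  exact zero_ne_one this

include hα hc hm in
lemma CN_step {z : K} (hz : CN v c α m z) : CN v c α m (gN c α m z) := by
  have h1 := fN_coe (c := c) (α := α) (m := m) (CN_ne hα hc hm hz)
  refine ⟨?_, fun n => ?_⟩
  · rw [← h1]; exact hz.1.step
  · rw [← h1, ← Function.iterate_succ_apply]; exact hz.2 (n + 1)

include hα hc hm in
lemma CN_iter {z : K} (hz : CN v c α m z) (n : ℕ) : CN v c α m ((gN c α m)^[n] z) ∧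
    (fN c α m)^[n] (z : OnePoint K) = (((gN c α m)^[n] z : K) : OnePoint K) := by
  induction n with
  | zero => exact ⟨hz, rfl⟩
  | succ n ih =>
    rw [Function.iterate_succ_apply', Function.iterate_succ_apply', ih.2,
      fN_coe (CN_ne hα hc hm ih.1)]
    exact ⟨CN_step hα hc hm ih.1, rfl⟩

include hm in
lemma CN_root {ζ z : K} (h : ζ ^ m = 1)
    (hz : CN v c α m z) : CN v c α m (ζ * z) := by
  refine ⟨?_, fun n => ?_⟩
  · apply Pre.of_step
    rw [fN_root h]; exact hz.1.step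
  · match n with
    | 0 =>
      have := hz.2 0
      simp only [Function.iterate_zero, id] at this ⊢
      rw [AN_coe] at this ⊢
      rwa [map_mul, root_v v hm h, one_mul]
    | n + 1 =>
      rw [Function.iterate_succ_apply, fN_root h, ← Function.iterate_succ_apply]
      exact hz.2 (n + 1)

include hα hc hm in
theorem big_neg {ζ₀ : K} (hζ : IsPrimitiveRoot ζ₀ m)
    (htame : ∀ ζ : K, ζ ^ m = 1 → ζ ≠ 1 → v (1 - ζ) = 1) {x y : K}
    (px : Per (fN c α m) (x : OnePoint K)) (py : Per (fN c α m) (y : OnePoint K))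
    (hne : x ≠ y) {ζ ζ' : K} (hζ1 : ζ ^ m = 1) (hζ1' : ζ' ^ m = 1) :
    ∃ g, v (x - ζ * y) = g ^ (m + 1) * v (x - ζ' * y) := by
  have hc0 : v c ≠ 0 := ne_of_gt (lt_trans zero_lt_one hc)
  have habs := AN_abs hα hc hm
  have hroot : ∀ {ζ : K}, ζ ^ m = 1 → v ζ = 1 := fun h' => root_v v hm h'
  have hα0 : α ≠ 0 := by rintro rfl; rw [map_zero] at hα; exact zero_ne_one hα
  -- absorbed periodic points
  have hone : ∀ {p : OnePoint K}, Per (fN c α m) p → AN v c m p →
      ∃ z : K, p = z ∧ v z = v c := by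
    intro p pp hp
    obtain ⟨q, hq, hqp, n, hn⟩ := per_prev pp
    have hq1 : AN v c m q := by rw [hn]; exact abs_iter habs hp n
    obtain ⟨z, hz, hz1⟩ := AN_step hα hc hm hq1
    exact ⟨z, by rw [← hqp, hz], hz1⟩
  have hcc : ∀ {x : K}, Per (fN c α m) (x : OnePoint K) → ¬ AN v c m (x : OnePoint K) →
      CN v c α m x := fun {x} px hx => ⟨px.pre, fun n hn => hx (abs_back habs px hn)⟩
  have hv1 : ∀ {x : K}, CN v c α m x → v x < 1 := by
    intro x cx
    by_contra hcon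
    rw [not_lt] at hcon
    have h1 : 1 < v c * v x ^ m :=
      lt_of_lt_of_le hc (le_mul_of_one_le_right' (one_le_pow₀ hcon))
    rw [CN_val hα hc hm cx] at h1
    exact lt_irrefl _ h1
  have hdiff : ∀ {x y : K} {ρ : Γ}, ρ ≠ 0 → v x = ρ → v y = ρ → v (gN c α m x - gN c α m y) =
      v (x ^ m - y ^ m) / ρ ^ (2 * m) := by
    intro x y ρ hρ hx hy
    have hx0 : x ≠ 0 := (Valuation.ne_zero_iff v).mp (by rw [hx]; exact hρ)
    have hy0 : y ≠ 0 := (Valuation.ne_zero_iff v).mp (by rw [hy]; exact hρ)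
    have e1 : gN c α m x - gN c α m y = α * -(x ^ m - y ^ m) / (x ^ m * y ^ m) := by
      simp only [gN]; field_simp; ring
    rw [e1, map_div₀, map_mul, map_mul, hα, one_mul, Valuation.map_neg, map_pow, map_pow, hx, hy,
      ← pow_add, ← two_mul]
  have hpow : ∀ {x y : K} {ρ : Γ}, ρ ≠ 0 → v x = ρ → v y = ρ →
      v (x ^ m - y ^ m) ≤ ρ ^ (m - 1) * v (x - y) := by
    intro x y ρ hρ hx hy
    have hy0 : y ≠ 0 := (Valuation.ne_zero_iff v).mp (by rw [hy]; exact hρ)
    have h3 : v ((x / y) ^ m - 1 ^ m) ≤ v (x / y - 1) :=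
      pow_sub_pow_le v (by rw [map_div₀, hx, hy, div_self hρ]) (by rw [map_one]) m
    have e1 : x ^ m - y ^ m = y ^ m * ((x / y) ^ m - 1 ^ m) := by
      rw [div_pow, one_pow]; field_simp
    have e2 : x / y - 1 = (x - y) / y := by field_simp
    rw [e1, map_mul, map_pow, hy]
    calc ρ ^ m * v ((x / y) ^ m - 1 ^ m) ≤ ρ ^ m * v (x / y - 1) := mul_le_mul' le_rfl h3
      _ = ρ ^ (m - 1) * v (x - y) := by
        rw [e2, map_div₀, hy, show m = (m - 1) + 1 by omega, pow_succ, Nat.add_sub_cancel,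
          mul_assoc, mul_div_cancel₀ _ hρ]
  by_cases hx : AN v c m (x : OnePoint K) <;> by_cases hy : AN v c m (y : OnePoint K)
  · -- contraction
    exfalso
    have hst : ∀ p q : OnePoint K, (Per (fN c α m) p ∧ AN v c m p) →
        (Per (fN c α m) q ∧ AN v c m q) →
        v (nu (fN c α m p) - nu (fN c α m q)) ≤ (v c)⁻¹ * v (nu p - nu q) := by
      rintro p q ⟨pp, hp⟩ ⟨pq, hq⟩
      obtain ⟨x, rfl, hx1⟩ := hone pp hp
      obtain ⟨y, rfl, hy1⟩ := hone pq hq
      have hx0 : x ≠ 0 := (Valuation.ne_zero_iff v).mp (by rw [hx1]; exact hc0)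
      have hy0 : y ≠ 0 := (Valuation.ne_zero_iff v).mp (by rw [hy1]; exact hc0)
      rw [fN_coe hx0, fN_coe hy0]
      simp only [nu_coe]
      rw [hdiff hc0 hx1 hy1, div_le_iff₀ (pow_pos (zero_lt_iff.mpr hc0) _)]
      refine (hpow hc0 hx1 hy1).trans ?_
      calc v c ^ (m - 1) * v (x - y) ≤ v c ^ (2 * m - 1) * v (x - y) :=
            mul_le_mul' (pow_le_pow_right₀ hc.le (by omega)) le_rfl
        _ = (v c)⁻¹ * v (x - y) * v c ^ (2 * m) := by
          rw [show 2 * m = (2 * m - 1) + 1 by omega, pow_succ, Nat.add_sub_cancel]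
          calc v c ^ (2 * m - 1) * v (x - y) =
              ((v c)⁻¹ * v c) * (v c ^ (2 * m - 1) * v (x - y)) := by
                rw [inv_mul_cancel₀ hc0, one_mul]
            _ = _ := by ac_rfl
    have hinv : (v c)⁻¹ < 1 := inv_lt_one_of_one_lt₀ hc
    have h3 := per_step (F := fN c α m) (δ := fun p q => v (nu p - nu q))
      (C := fun p => Per (fN c α m) p ∧ AN v c m p) (fun p hp => ⟨hp.1.step, habs p hp.2⟩)
      (fun p q hp hq => (hst p q hp hq).trans (by
        calc (v c)⁻¹ * v (nu p - nu q) ≤ 1 * v (nu p - nu q) := mul_le_mul' hinv.le le_rfl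
          _ = _ := one_mul _)) (p := (x : OnePoint K)) (q := (y : OnePoint K)) ⟨px, hx⟩ ⟨py, hy⟩
      px py
    have h4 := h3.trans (hst _ _ ⟨px, hx⟩ ⟨py, hy⟩)
    simp only [nu_coe] at h4
    have hxy : 0 < v (x - y) :=
      zero_lt_iff.mpr ((Valuation.ne_zero_iff _).mpr (sub_ne_zero.mpr hne))
    have h5 : (v c)⁻¹ * v (x - y) < 1 * v (x - y) := (mul_lt_mul_iff_left₀ hxy).mpr hinv
    rw [one_mul] at h5
    exact absurd h4 (not_le.mpr h5)
  · -- `x` absorbed
    have hx1 : v x = v c := by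
      obtain ⟨z, hz, hz1⟩ := hone px hx
      rwa [OnePoint.coe_injective hz]
    have hy1 := hv1 (hcc py hy)
    have key : ∀ {ζ : K}, ζ ^ m = 1 → v (x - ζ * y) = v c := by
      intro ζ hζ
      rw [Valuation.map_sub_eq_of_lt_left, hx1]
      rw [map_mul, hroot hζ, one_mul, hx1]; exact hy1.trans hc
    exact ⟨1, by rw [key hζ1, key hζ1', one_pow, one_mul]⟩
  · have hy1 : v y = v c := by
      obtain ⟨z, hz, hz1⟩ := hone py hy
      rwa [OnePoint.coe_injective hz]
    have hx1 := hv1 (hcc px hx)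
    have key : ∀ {ζ : K}, ζ ^ m = 1 → v (x - ζ * y) = v c := by
      intro ζ hζ
      rw [Valuation.map_sub_eq_of_lt_right, map_mul, hroot hζ, one_mul, hy1]
      rw [map_mul, hroot hζ, one_mul, hy1]; exact hx1.trans hc
    exact ⟨1, by rw [key hζ1, key hζ1', one_pow, one_mul]⟩
  · -- expansion
    have cx := hcc px hx
    have cy := hcc py hy
    set ρ := v y with hρ
    have hρm : v c * ρ ^ m = 1 := CN_val hα hc hm cy
    have hρ0 : ρ ≠ 0 := (Valuation.ne_zero_iff v).mpr (CN_ne hα hc hm cy)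
    have hρ1 : ρ < 1 := hv1 cy
    have hveq : ∀ z : K, CN v c α m z → v z = ρ := by
      intro z cz
      have h1 := (CN_val hα hc hm cz).trans hρm.symm
      exact (pow_left_inj₀ zero_le zero_le (by omega)).mp (mul_left_cancel₀ hc0 h1)
    have hE1 : 1 < (ρ⁻¹) ^ (m + 1) :=
      one_lt_pow₀ ((one_lt_inv₀ (zero_lt_iff.mpr hρ0)).mpr hρ1) (by omega)
    have hstep : ∀ x y : K, CN v c α m x → CN v c α m y →
        v (x - y) < ρ → v (gN c α m x - gN c α m y) = (ρ⁻¹) ^ (m + 1) * v (x - y) := by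
      intro x y cx cy hxy
      have hy1 := hveq y cy
      rw [hdiff hρ0 (hveq x cx) hy1, bad_step v hζ hm htame (by rw [hy1]; exact hxy), hy1,
        div_eq_iff (pow_ne_zero _ hρ0)]
      have e1 : ρ ^ (2 * m) = ρ ^ (m + 1) * ρ ^ (m - 1) := by
        rw [← pow_add]; congr 1; omega
      rw [e1, inv_pow]
      calc ρ ^ (m - 1) * v (x - y) = ((ρ ^ (m + 1))⁻¹ * ρ ^ (m + 1)) * (ρ ^ (m - 1) * v (x - y)) := by
            rw [inv_mul_cancel₀ (pow_ne_zero _ hρ0), one_mul]
        _ = _ := by ac_rfl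
    have hpre : ∀ {z : K}, CN v c α m z → Pre (gN c α m) z := by
      intro z hz
      obtain ⟨i, j, hij, heq⟩ := hz.1
      rw [(CN_iter hα hc hm hz i).2, (CN_iter hα hc hm hz j).2] at heq
      exact ⟨i, j, hij, OnePoint.coe_injective heq⟩
    have key : ∀ {ζ : K}, ζ ^ m = 1 → ∃ g, v (x - ζ * y) = g ^ (m + 1) * ρ := by
      intro ζ hζ'
      have cζ := CN_root hm hζ' cy
      refine chain v (f := gN c α m) (C := CN v c α m) (fun z hz => CN_step hα hc hm hz) hveq hρ0
        rfl hE1 hstep cx cζ (hpre cx) (hpre cζ) ?_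
      intro n hn
      have h2 : (fN c α m)^[n] (x : OnePoint K) =
          (fN c α m)^[n] ((ζ * y : K) : OnePoint K) := by
        rw [(CN_iter hα hc hm cx n).2, (CN_iter hα hc hm cζ n).2, hn]
      have h3 : (fN c α m)^[n + 1] (x : OnePoint K) = (fN c α m)^[n + 1] (y : OnePoint K) := by
        rw [Function.iterate_succ_apply' _ n, h2, ← Function.iterate_succ_apply' (fN c α m),
          Function.iterate_succ_apply, fN_root hζ', ← Function.iterate_succ_apply]
      exact hne (OnePoint.coe_injective (per_inj px py h3))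
    obtain ⟨g, hg⟩ := key hζ1
    obtain ⟨g', hg'⟩ := key hζ1'
    have hg0' : g' ≠ 0 := by
      rintro rfl
      rw [zero_pow (by omega), zero_mul, Valuation.zero_iff, sub_eq_zero] at hg'
      apply hne
      apply OnePoint.coe_injective
      apply per_inj (k := 1) px py
      rw [Function.iterate_one, hg', fN_root hζ1']
    refine ⟨g / g', ?_⟩
    rw [hg, hg', div_pow, ← mul_assoc, div_mul_cancel₀ _ (pow_ne_zero _ hg0')]

end big

/-- all places -/
theorem all_neg (hα : v α = 1) (hm : 2 ≤ m) {ζ₀ : K} (hζ : IsPrimitiveRoot ζ₀ m)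
    (htame : ∀ ζ : K, ζ ^ m = 1 → ζ ≠ 1 → v (1 - ζ) = 1) {x y : K}
    (px : Per (fN c α m) (x : OnePoint K)) (py : Per (fN c α m) (y : OnePoint K))
    (hne : x ≠ y) {ζ ζ' : K} (hζ1 : ζ ^ m = 1) (hζ2 : ζ ≠ 1) (hζ1' : ζ' ^ m = 1)
    (hζ2' : ζ' ≠ 1) : ∃ g, v (x - ζ * y) = g ^ (m + 1) * v (x - ζ' * y) := by
  rcases le_or_gt (v c) 1 with hc | hc
  · refine ⟨1, ?_⟩
    have key : ∀ {ζ : K}, ζ ^ m = 1 → ζ ≠ 1 → v (x - ζ * y) =
        nrm v (x : OnePoint K) * nrm v (y : OnePoint K) := by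
      intro ζ h1 h2
      have h3 := good_neg hα hc hm hζ px py (fun h => hne (OnePoint.coe_injective h)) h1 h2
      rw [dl, div_eq_one_iff_eq (mul_ne_zero (nrm_ne v _) (nrm_ne v _)), nu_coe, nu_coe, de_coe,
        de_coe, mul_one, mul_one] at h3
      exact h3
    rw [key hζ1 hζ2, key hζ1' hζ2', one_pow, one_mul]
  · exact big_neg hα hc hm hζ htame px py hne hζ1 hζ1'

end loc

end Pool.Agent.H422.BN
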