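import Mathlib
import Pool.Agent.H422.UC.Global
import Pool.Agent.H422.BN.Neg

/-!
# `z ↦ c + α / z ^ m` over a number field
-/

set_option autoImplicit false

open Polynomial IsDedekindDomain NumberField OnePoint

namespace Pool.Agent.H422.BN

open Pool.Agent.H422.HE Pool.Agent.H422.UC Pool.Agent.H422.MF Pool.Agent.H422.MR

section alg

variable {K : Type*} [Field K] {c α : K} {m : ℕ}

/-- the equations of a pair -/
lemma pair_neg {x y τ s : K} (hx : x ≠ 0) (hy : y ≠ 0) (h1 : gN c α m y = τ * y)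
    (h2 : gN c α m x = s * y) (ht : (x / y) ^ m ≠ 1) :
    α / y ^ (m + 1) = (τ - s) * (x / y) ^ m / ((x / y) ^ m - 1) ∧
    c = (τ - (τ - s) * (x / y) ^ m / ((x / y) ^ m - 1)) * y := by
  set t := x / y with htdef
  have ht0 : t ≠ 0 := div_ne_zero hx hy
  have hxt : x = t * y := by rw [htdef, div_mul_cancel₀ _ hy]
  have ht1 : t ^ m - 1 ≠ 0 := sub_ne_zero.mpr ht
  have htm : t ^ m ≠ 0 := pow_ne_zero _ ht0
  have hym : y ^ m ≠ 0 := pow_ne_zero _ hy
  set Z := α / y ^ (m + 1) with hZ
  have hα : α = Z * y ^ (m + 1) := by rw [hZ, div_mul_cancel₀ _ (pow_ne_zero _ hy)]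
  have e1 : c = (τ - Z) * y := by
    have h3 : c + Z * y = τ * y := by
      rw [← h1, gN, hα, pow_succ]
      field_simp
    linear_combination h3
  have e2 : Z * (t ^ m - 1) = (τ - s) * t ^ m := by
    have h3 : c * t ^ m + Z * y = s * y * t ^ m := by
      rw [← h2, gN, hα, hxt, pow_succ, mul_pow]
      field_simp
    apply mul_right_cancel₀ hy
    rw [e1] at h3
    linear_combination -h3
  have e3 : Z = (τ - s) * t ^ m / (t ^ m - 1) := by rw [eq_div_iff ht1, e2]
  exact ⟨e3, by rw [← e3]; exact e1⟩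

end alg

section glob

variable {K : Type} [Field K] [NumberField K] {α : K} {m : ℕ} {ζ₀ : K}

/-- ratios of periodic points -/
def RN (K : Type) [Field K] [NumberField K] (α : K) (m : ℕ) : Set K :=
  {t : K | ∀ v ∉ Sbad K m ∪ {v : HeightOneSpectrum (𝓞 K) | v.valuation K α ≠ 1},
    ∀ r ∈ rts K m, ∀ r' ∈ rts K m,
      ∃ g, v.valuation K (t - r) = g ^ (m + 1) * v.valuation K (t - r')}

lemma RN_finite (hα : α ≠ 0) (hm : 4 ≤ m) (hζ : IsPrimitiveRoot ζ₀ m) : (RN K α m).Finite := by
  classical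
  apply pow_fin_proj K ((Sbad_finite (by omega)).union (finite_unit α hα))
  have : (rts K m).card = m - 1 := by
    rw [rts, Finset.card_erase_of_mem ((mem_roots' (by omega)).mpr (one_pow m)),
      hζ.card_nthRootsFinset]
  rw [this]
  left
  omega

lemma RN_mem {c : K} (hm : 2 ≤ m) (hζ : IsPrimitiveRoot ζ₀ m)
    {x y : K} (px : Per (fN c α m) (x : OnePoint K)) (py : Per (fN c α m) (y : OnePoint K))
    (hy0 : y ≠ 0) (hne : x ≠ y) : x / y ∈ RN K α m := by
  intro v hv r hr r' hr'
  rw [Set.mem_union, not_or, Set.mem_ofPred_eq, not_not] at hv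
  rw [mem_rts hm] at hr hr'
  obtain ⟨g, hg⟩ := all_neg hv.2 hm hζ (tame_of hm hv.1) px py hne hr.1 hr.2 hr'.1 hr'.2
  refine ⟨g, ?_⟩
  have e1 : ∀ r : K, x / y - r = (x - r * y) / y := by intro r; field_simp
  rw [e1, e1, map_div₀, map_div₀, hg, mul_div_assoc]

/-- ratios with a fixed point -/
def WN (K : Type) [Field K] [NumberField K] (α : K) (m : ℕ) (σ : K) : Set K :=
  {t : K | ∀ v ∉ (Sbad K m ∪ {v : HeightOneSpectrum (𝓞 K) | v.valuation K α ≠ 1}) ∪
      {v : HeightOneSpectrum (𝓞 K) | v.valuation K (1 - σ) ≠ 1},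
    ∀ r ∈ nthRootsFinset m (1 : K), ∀ r' ∈ nthRootsFinset m (1 : K),
      ∃ g, v.valuation K (t - r) = g ^ (m + 1) * v.valuation K (t - r')}

lemma WN_finite (hα : α ≠ 0) (hm : 4 ≤ m) (hζ : IsPrimitiveRoot ζ₀ m) {σ : K} (hσ : σ ≠ 1) :
    (WN K α m σ).Finite := by
  classical
  apply pow_fin_proj K (((Sbad_finite (by omega)).union (finite_unit α hα)).union
    (finite_unit _ (sub_ne_zero.mpr hσ.symm)))
  rw [hζ.card_nthRootsFinset]
  left
  omega

lemma WN_mem (hm : 2 ≤ m) (hζ : IsPrimitiveRoot ζ₀ m) {y t σ : K} (hy : y ≠ 0)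
    (ht : t ^ m ≠ 1) (e1 : α / y ^ (m + 1) = (1 - σ) * t ^ m / (t ^ m - 1)) :
    t ∈ WN K α m σ := by
  intro v hv r hr r' hr'
  simp only [Set.mem_union, Set.mem_ofPred_eq, not_or, not_not] at hv
  obtain ⟨⟨h1, h2⟩, h3⟩ := hv
  have htame := tame_of hm h1
  rw [mem_roots' hm] at hr hr'
  rcases lt_or_ge 1 (v.valuation K t) with h4 | h4
  · refine ⟨1, ?_⟩
    have key : ∀ r : K, r ^ m = 1 → v.valuation K (t - r) = v.valuation K t := by
      intro r hr
      apply Valuation.map_sub_eq_of_lt_left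
      rw [root_v _ hm hr]
      exact h4
    rw [key r hr, key r' hr', one_pow, one_mul]
  · have key : ∀ r : K, r ^ m = 1 → ∃ g, g ≠ 0 ∧ v.valuation K (t - r) = g ^ (m + 1) := by
      intro r hr
      have hrv : v.valuation K r = 1 := root_v _ hm hr
      have hle : v.valuation K (t - r) ≤ 1 :=
        ((v.valuation K).map_sub _ _).trans (max_le h4 hrv.le)
      rcases lt_or_eq_of_le hle with h | h
      swap
      · exact ⟨1, one_ne_zero, by rw [h, one_pow]⟩
      have h5 : v.valuation K (t ^ m - 1) = v.valuation K (t - r) := by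
        rw [← hr, bad_step _ hζ hm htame (by rw [hrv]; exact h), hrv, one_pow, one_mul]
      have htv : v.valuation K t = 1 := by
        have : t = r + (t - r) := by ring
        rw [this, Valuation.map_add_eq_of_lt_left, hrv]
        rw [hrv]; exact h
      have hvy : v.valuation K y ≠ 0 := (Valuation.ne_zero_iff _).mpr hy
      have h6 := congrArg (v.valuation K) e1
      rw [map_div₀, map_div₀, map_mul, map_pow, map_pow, h2, h3, htv, one_pow, one_mul, h5,
        one_div, one_div] at h6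
      exact ⟨v.valuation K y, hvy, (inv_injective h6).symm⟩
    obtain ⟨g, hg0, hg⟩ := key r hr
    obtain ⟨g', hg0', hg'⟩ := key r' hr'
    refine ⟨g / g', ?_⟩
    rw [hg, hg', div_pow, div_mul_cancel₀ _ (pow_ne_zero _ hg0')]

/-- the exceptional parameters of a pair -/
def EN (K : Type) [Field K] (α : K) (m : ℕ) (τ t s : K) : Set K :=
  {c | ∃ y : K, y ≠ 0 ∧ α / y ^ (m + 1) = (τ - s) * t ^ m / (t ^ m - 1) ∧
    c = (τ - (τ - s) * t ^ m / (t ^ m - 1)) * y}

omit [NumberField K] in
lemma EN_finite [CharZero K] (hα : α ≠ 0) (τ t s : K) : (EN K α m τ t s).Finite := by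
  classical
  set Z := (τ - s) * t ^ m / (t ^ m - 1) with hZ
  have h1 : {y : K | y ^ (m + 1) = α / Z}.Finite := by
    refine ((X ^ (m + 1) - C (α / Z) : K[X]).roots.toFinset.finite_toSet).subset ?_
    intro z hz
    rw [Finset.mem_coe, Multiset.mem_toFinset,
      mem_roots (monic_X_pow_sub_C _ (by omega)).ne_zero, IsRoot.def]
    simp only [eval_sub, eval_pow, eval_X, eval_C]
    rw [sub_eq_zero]; exact hz
  refine (h1.image (fun y => (τ - Z) * y)).subset ?_
  rintro c ⟨y, hy, h2, h3⟩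
  rw [← hZ] at h2 h3
  refine ⟨y, ?_, h3.symm⟩
  rw [Set.mem_ofPred_eq, ← h2, div_div_cancel₀ hα]

/-- **The exceptional parameters are finite in number.** -/
theorem exc_neg (hα : α ≠ 0) (hm : 4 ≤ m) (hζ : IsPrimitiveRoot ζ₀ m) :
    {c : K | c ≠ 0 ∧ ((∃ x y : K, x ≠ 0 ∧ y ≠ 0 ∧ Pre (fN c α m) (x : OnePoint K) ∧
      Pre (fN c α m) (y : OnePoint K) ∧ x ^ m ≠ y ^ m) ∨ Pre (fN c α m) ∞)}.Finite := by
  classical
  have hm2 : 2 ≤ m := by omega
  set T : Set K := RN K α m ∪ {1} with hT
  have hTfin : T.Finite := (RN_finite hα hm hζ).union (Set.finite_singleton 1)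
  set U : Set K := {s : K | s ^ m = 1} with hU
  have hUfin : U.Finite := pow_eq_finite (by omega) 1
  have hfin : ((⋃ τ ∈ T, ⋃ t ∈ T, ⋃ s ∈ T, EN K α m τ t s) ∪
      (⋃ σ ∈ U, ⋃ t ∈ (if σ = 1 then ∅ else WN K α m σ), EN K α m 1 t σ)).Finite := by
    refine Set.Finite.union (hTfin.biUnion fun τ _ => hTfin.biUnion fun t _ =>
      hTfin.biUnion fun s _ => EN_finite hα _ _ _)
      (hUfin.biUnion fun σ _ => Set.Finite.biUnion ?_ fun t _ => EN_finite hα _ _ _)
    split_ifs with h
    · exact Set.finite_empty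
    · exact WN_finite hα hm hζ h
  have hfin2 : ({c : K | c ^ (m + 1) = -α} ∪ ⋃ t ∈ T, {c : K | c ^ (m + 1) = α / (t - 1)}).Finite :=
    (pow_eq_finite (by omega) _).union (hTfin.biUnion fun t _ => pow_eq_finite (by omega) _)
  have hfin3 : (⋃ σ ∈ U, (fun p => σ * p) '' {p : K | p ^ (m + 1) = α / (1 - σ)}).Finite :=
    hUfin.biUnion fun σ _ => (pow_eq_finite (by omega) _).image _
  refine ((hfin.union hfin2).union hfin3).subset ?_
  rintro c ⟨hc0, hcc⟩
  by_contra hout
  rw [Set.mem_union, Set.mem_union, Set.mem_union, Set.mem_union, not_or, not_or, not_or,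
    not_or] at hout
  obtain ⟨⟨⟨hout1, hout2⟩, hout3, hout4⟩, hout5⟩ := hout
  set F := fN c α m with hF
  have hFinf : F ∞ = ((c : K) : OnePoint K) := fN_infty (by omega)
  have hFzero : F ((0 : K) : OnePoint K) = ∞ := fN_zero (by omega)
  have hFcoe : ∀ {z : K}, z ≠ 0 → F (z : OnePoint K) = ((gN c α m z : K) : OnePoint K) :=
    fun hz => fN_coe hz
  have keyT : ∀ {z w : K}, Per F (z : OnePoint K) → Per F (w : OnePoint K) → w ≠ 0 →
      z / w ∈ T := by
    intro z w hz hw hw0
    by_cases h : z = w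
    · right; rw [h, div_self hw0]; rfl
    · left; exact RN_mem hm2 hζ hz hw hw0 h
  -- `c` is not periodic
  have hcper : ¬ Per F ((c : K) : OnePoint K) := by
    intro h
    have h1 := h.step
    rw [hFcoe hc0] at h1
    have h2 := keyT h1 h hc0
    have h3 : gN c α m c / c - 1 = α / c ^ (m + 1) := by
      rw [gN, pow_succ]; field_simp; ring
    apply hout4
    simp only [Set.mem_iUnion]
    refine ⟨_, h2, ?_⟩
    rw [Set.mem_ofPred_eq, h3, div_div_cancel₀ hα]
  have hinf : ¬ Per F ∞ := fun h => hcper (by have := h.step; rwa [hFinf] at this)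
  have hzero : ¬ Per F ((0 : K) : OnePoint K) := fun h =>
    hinf (by have := h.step; rwa [hFzero] at this)
  have hstep : ∀ {z : K}, Per F (z : OnePoint K) → z ≠ 0 ∧ gN c α m z ≠ 0 ∧
      Per F ((gN c α m z : K) : OnePoint K) := by
    intro z hz
    have hz0 : z ≠ 0 := by rintro rfl; exact hzero hz
    have h1 := hz.step
    rw [hFcoe hz0] at h1
    refine ⟨hz0, ?_, h1⟩
    intro h0
    rw [h0] at h1
    exact hzero h1
  -- at most one periodic point
  have huniq : ∀ {p q : K}, Per F (p : OnePoint K) → Per F (q : OnePoint K) → p = q := by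
    intro p q hp hq
    by_contra hne
    obtain ⟨hp0, hgp, hp1⟩ := hstep hp
    obtain ⟨hq0, hgq, hq1⟩ := hstep hq
    have ht : (p / q) ^ m ≠ 1 := by
      intro h
      apply hne
      apply OnePoint.coe_injective
      apply per_inj (k := 1) hp hq
      have hpq : p = (p / q) * q := by rw [div_mul_cancel₀ _ hq0]
      rw [Function.iterate_one, hpq]
      exact fN_root h
    obtain ⟨e1, e2⟩ := pair_neg (c := c) (α := α) (m := m) (τ := gN c α m q / q)
      (s := gN c α m p / q) hp0 hq0 (div_mul_cancel₀ _ hq0).symm (div_mul_cancel₀ _ hq0).symm ht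
    apply hout1
    simp only [Set.mem_iUnion]
    exact ⟨_, keyT hq1 hq hq0, _, keyT hp hq hq0, _, keyT hp1 hq hq0, q, hq0, e1, e2⟩
  -- every preperiodic point leads to the fixed point
  have hevent : ∀ {x : OnePoint K}, Pre F x → ∃ p : K, p ≠ 0 ∧ gN c α m p = p ∧
      Per F (p : OnePoint K) ∧ ∃ k, F^[k] x = (p : OnePoint K) := by
    intro x hx
    obtain ⟨k, hk⟩ := hx.exists_per
    have h1 : F^[k] x ≠ ∞ := by
      intro h; rw [h] at hk; exact hinf hk
    obtain ⟨p, hp⟩ := OnePoint.ne_infty_iff_exists.mp h1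
    rw [← hp] at hk
    obtain ⟨hp0, -, hp1⟩ := hstep hk
    exact ⟨p, hp0, huniq hp1 hk, hk, k, hp.symm⟩
  have main : ∀ {x p : K}, x ≠ 0 → p ≠ 0 → Pre F (x : OnePoint K) → gN c α m p = p →
      Per F (p : OnePoint K) → x ^ m = p ^ m := by
    intro x p hx hp0 px hfix hp
    by_contra hne
    have hex : ∃ k, ∃ w : K, w ^ m = p ^ m ∧ F^[k] (x : OnePoint K) = (w : OnePoint K) := by
      obtain ⟨p', hp0', hfix', hp', k, hk⟩ := hevent px
      exact ⟨k, p', by rw [huniq hp' hp], hk⟩
    set j := Nat.find hex with hj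
    obtain ⟨w, hw1, hw2⟩ := Nat.find_spec hex
    rw [← hj] at hw2
    have hj0 : j ≠ 0 := by
      intro h0
      rw [h0] at hw2
      have := OnePoint.coe_injective hw2
      exact hne (by rw [this]; exact hw1)
    obtain ⟨k, hk⟩ : ∃ k, j = k + 1 := ⟨j - 1, by omega⟩
    have hkn := Nat.find_min hex (m := k) (by omega)
    rw [hk, Function.iterate_succ_apply'] at hw2
    have hσ : (w / p) ^ m = 1 := by rw [div_pow, hw1, div_self (pow_ne_zero _ hp0)]
    have hwp : w = w / p * p := (div_mul_cancel₀ _ hp0).symm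
    generalize hu : F^[k] (x : OnePoint K) = u at hw2 hkn
    induction u using OnePoint.rec with
    | infty =>
      rw [hFinf] at hw2
      have h1 := OnePoint.coe_injective hw2
      -- `c = w`
      have h2 : p - c = α / p ^ m := by
        have := hfix; rw [gN] at this; linear_combination -this
      have h3 : p * (1 - w / p) = α / p ^ m := by
        rw [← h2, h1]; field_simp
      have h4 : 1 - w / p ≠ 0 := by
        intro h0
        rw [h0, mul_zero] at h3
        exact div_ne_zero hα (pow_ne_zero _ hp0) h3.symm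
      apply hout5
      simp only [Set.mem_iUnion]
      refine ⟨w / p, hσ, p, ?_, ?_⟩
      · rw [Set.mem_ofPred_eq, eq_div_iff h4]
        have h5 : p * (1 - w / p) * p ^ m = α := by
          rw [h3, div_mul_cancel₀ _ (pow_ne_zero _ hp0)]
        rw [← h5]; ring
      · simp only
        rw [h1, div_mul_cancel₀ _ hp0]
    | coe z =>
      by_cases hz : z = 0
      · rw [hz, hFzero] at hw2
        exact OnePoint.infty_ne_coe _ hw2
      rw [hFcoe hz] at hw2
      have h1 := OnePoint.coe_injective hw2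
      have hzp : z ^ m ≠ p ^ m := fun h => hkn ⟨z, h, rfl⟩
      have ht : (z / p) ^ m ≠ 1 := by
        rw [div_pow, Ne, div_eq_one_iff_eq (pow_ne_zero _ hp0)]
        exact hzp
      obtain ⟨e1, e2⟩ := pair_neg (c := c) (α := α) (m := m) (τ := 1) (s := w / p) hz hp0
        (by rw [one_mul]; exact hfix) (by rw [div_mul_cancel₀ _ hp0]; exact h1) ht
      apply hout2
      simp only [Set.mem_iUnion]
      refine ⟨w / p, hσ, z / p, ?_, p, hp0, e1, e2⟩
      have h2 : w / p ≠ 1 := by
        intro h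
        rw [h, sub_self, zero_mul, zero_div] at e1
        exact div_ne_zero hα (pow_ne_zero _ hp0) e1
      rw [if_neg h2]
      exact WN_mem hm2 hζ hp0 ht e1
  rcases hcc with ⟨x, y, hx0, hy0, px, py, hxy⟩ | hpre
  · obtain ⟨p, hp0, hfix, hp, -⟩ := hevent px
    exact hxy ((main hx0 hp0 px hfix hp).trans (main hy0 hp0 py hfix hp).symm)
  · obtain ⟨p, hp0, hfix, hp, -⟩ := hevent hpre
    have h1 := hpre.step
    rw [hFinf] at h1
    have h2 := main hc0 hp0 h1 hfix hp
    -- `c = σ p`
    have hσ : (c / p) ^ m = 1 := by rw [div_pow, h2, div_self (pow_ne_zero _ hp0)]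
    have h3 : p * (1 - c / p) = α / p ^ m := by
      have h4 : p - c = α / p ^ m := by
        have := hfix; rw [gN] at this; linear_combination -this
      rw [← h4]; field_simp
    have h4 : 1 - c / p ≠ 0 := by
      intro h0
      rw [h0, mul_zero] at h3
      exact div_ne_zero hα (pow_ne_zero _ hp0) h3.symm
    apply hout5
    simp only [Set.mem_iUnion]
    refine ⟨c / p, hσ, p, ?_, ?_⟩
    · rw [Set.mem_ofPred_eq, eq_div_iff h4]
      have h5 : p * (1 - c / p) * p ^ m = α := by
        rw [h3, div_mul_cancel₀ _ (pow_ne_zero _ hp0)]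
      rw [← h5]; ring
    · simp only
      rw [div_mul_cancel₀ _ hp0]

end glob

end Pool.Agent.H422.BN
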