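import Mathlib
import Pool.Agent.H422.BN.Main
import Pool.Agent.H422.BN.NegG
import Pool.Agent.H422.MR.Main

/-!
# `z ↦ α z ^ a + l z ^ b` over a number field, all exponents with a pole at `0`
-/

set_option autoImplicit false

open Polynomial IsDedekindDomain NumberField OnePoint

namespace Pool.Agent.H422.BN

open Pool.Agent.H422.HE Pool.Agent.H422.UC Pool.Agent.H422.MF Pool.Agent.H422.MR

section ext

variable {K L : Type*} [Field K] [Field L] (φ : K →+* L)

lemma bc_fN (c α : K) (m : ℕ) (p : OnePoint K) :
    fN (φ c) (φ α) m (bc φ p) = bc φ (fN c α m p) := by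
  rw [fN, fN, ← bc_pt]
  induction p using OnePoint.rec with
  | infty => simp
  | coe z => simp

lemma bc_fN_iter (c α : K) (m : ℕ) (p : OnePoint K) (n : ℕ) :
    (fN (φ c) (φ α) m)^[n] (bc φ p) = bc φ ((fN c α m)^[n] p) := by
  induction n with
  | zero => rfl
  | succ n ih => rw [Function.iterate_succ_apply', Function.iterate_succ_apply', ih, bc_fN]

lemma pre_bc {c α : K} {m : ℕ} {p : OnePoint K} (h : Pre (fN c α m) p) :
    Pre (fN (φ c) (φ α) m) (bc φ p) := by
  obtain ⟨i, j, hij, he⟩ := h
  exact ⟨i, j, hij, by rw [bc_fN_iter, bc_fN_iter, he]⟩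

end ext

/-- the exceptional parameters, any number field -/
theorem main_neg_fin (K : Type) [Field K] [NumberField K] {α : K} {m : ℕ} (hα : α ≠ 0)
    (hm : 4 ≤ m) :
    {c : K | c ≠ 0 ∧ ((∃ x y : K, x ≠ 0 ∧ y ≠ 0 ∧ Pre (fN c α m) (x : OnePoint K) ∧
      Pre (fN c α m) (y : OnePoint K) ∧ x ^ m ≠ y ^ m) ∨ Pre (fN c α m) ∞)}.Finite := by
  classical
  have : NeZero m := ⟨by omega⟩
  have : NeZero ((m : ℕ) : K) := ⟨Nat.cast_ne_zero.mpr (by omega)⟩
  set L := CyclotomicField m K with hL
  have hζ := IsCyclotomicExtension.zeta_spec m K L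
  set φ : K →+* L := algebraMap K L with hφ
  have hfin := exc_neg (K := L) (α := φ α) (m := m) ((map_ne_zero φ).mpr hα) hm hζ
  refine (hfin.preimage (f := φ) φ.injective.injOn).subset ?_
  rintro c ⟨hc, h⟩
  refine ⟨(map_ne_zero φ).mpr hc, ?_⟩
  rcases h with ⟨x, y, hx, hy, px, py, hxy⟩ | h
  · left
    refine ⟨φ x, φ y, (map_ne_zero φ).mpr hx, (map_ne_zero φ).mpr hy, pre_bc φ px, pre_bc φ py, ?_⟩
    rw [← map_pow, ← map_pow]
    exact fun h => hxy (φ.injective h)
  · right
    exact pre_bc φ h

lemma fN_rat {K : Type*} [Field K] {c α : K} {m : ℕ} (hc : c ≠ 0) (hm : 1 ≤ m) :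
    fN c α m = rat (C c * X ^ m + C α) (X ^ m) := by
  have hP : (C c * X ^ m + C α : K[X]).natDegree = m := by
    rw [natDegree_add_C, natDegree_C_mul_X_pow _ _ hc]
  funext p
  induction p using OnePoint.rec with
  | infty =>
    rw [fN_infty hm, rat_infty, hP, natDegree_X_pow, max_self]
    have h1 : (C c * X ^ m + C α : K[X]).coeff m = c := by
      rw [coeff_add, coeff_C_mul, coeff_X_pow, if_pos rfl, mul_one, coeff_C,
        if_neg (by omega), add_zero]
    have h2 : (X ^ m : K[X]).coeff m = 1 := by rw [coeff_X_pow, if_pos rfl]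
    rw [h1, h2, pt_ne one_ne_zero, div_one]
  | coe z =>
    rw [rat_coe, fN, nu_coe, de_coe]
    simp

/-- **All preperiodic points of `z ↦ c + α / z ^ m`.** -/
theorem main_neg (K : Type) [Field K] [NumberField K] {α : K} {m : ℕ} (hα : α ≠ 0) (hm : 4 ≤ m) :
    ∃ (E : Finset K) (B : ℕ), ∀ c : K, c ≠ 0 →
      (∀ T : Finset (OnePoint K), (∀ p ∈ T, Pre (fN c α m) p) → T.card ≤ B) ∧
      (c ∉ E → ∀ x y : K, x ≠ 0 → y ≠ 0 → Pre (fN c α m) (x : OnePoint K) →
        Pre (fN c α m) (y : OnePoint K) → x ^ m = y ^ m) := by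
  classical
  set E := (main_neg_fin K hα hm).toFinset with hE
  have hnor : ∀ c : K, c ≠ 0 → {p : OnePoint K | Pre (fN c α m) p}.Finite := by
    intro c hc
    rw [fN_rat hc (by omega)]
    have hcop := bn_coprime (K := K) (β := c) (γ := α) (n := 0) (m := m) hα (by omega)
    rw [Nat.zero_add] at hcop
    apply northcott_rat hcop
    refine le_trans ?_ (le_max_right _ _)
    rw [natDegree_X_pow]
    omega
  set k : K → ℕ := fun c => if h : c ≠ 0 then (hnor c h).toFinset.card else 0 with hk
  have hEx : ∀ c : K, c ≠ 0 → c ∉ E → ∀ x y : K, x ≠ 0 → y ≠ 0 →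
      Pre (fN c α m) (x : OnePoint K) → Pre (fN c α m) (y : OnePoint K) → x ^ m = y ^ m := by
    intro c hc hout x y hx hy px py
    by_contra hne
    apply hout
    rw [hE, Set.Finite.mem_toFinset]
    exact ⟨hc, Or.inl ⟨x, y, hx, hy, px, py, hne⟩⟩
  refine ⟨E, ∑ q ∈ E, k q + (m + 2), fun c hc => ⟨fun T hT => ?_, hEx c hc⟩⟩
  by_cases hin : c ∈ E
  · have h2 : T ⊆ (hnor c hc).toFinset := by
      intro x hx
      rw [Set.Finite.mem_toFinset]
      exact hT x hx
    have h3 : T.card ≤ ∑ q ∈ E, k q := by
      calc T.card ≤ (hnor c hc).toFinset.card := Finset.card_le_card h2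
        _ = k c := by simp only [hk]; rw [dif_pos hc]
        _ ≤ _ := Finset.single_le_sum (f := k) (fun _ _ => Nat.zero_le _) hin
    omega
  · have hcard : T.card ≤ m + 2 := by
      by_cases hex : ∃ y : K, y ≠ 0 ∧ Pre (fN c α m) (y : OnePoint K)
      · obtain ⟨y, hy, py⟩ := hex
        have hsub : T ⊆ {∞, ((0 : K) : OnePoint K)} ∪
            ((X ^ m - C (y ^ m) : K[X]).roots.toFinset.image
              (fun z : K => (z : OnePoint K))) := by
          intro p hp
          have hpp := hT p hp
          induction p using OnePoint.rec with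
          | infty => simp
          | coe x =>
            by_cases hx : x = 0
            · rw [hx]; simp
            · apply Finset.mem_union_right
              refine Finset.mem_image.mpr ⟨x, ?_, rfl⟩
              rw [Multiset.mem_toFinset, mem_roots (monic_X_pow_sub_C _ (by omega)).ne_zero,
                IsRoot.def]
              simp only [eval_sub, eval_pow, eval_X, eval_C]
              rw [sub_eq_zero]
              exact hEx c hc hin x y hx hy hpp py
        refine (Finset.card_le_card hsub).trans ((Finset.card_union_le _ _).trans ?_)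
        have h1 : ({∞, ((0 : K) : OnePoint K)} : Finset (OnePoint K)).card ≤ 2 := Finset.card_le_two
        have h2 : ((X ^ m - C (y ^ m) : K[X]).roots.toFinset.image
              (fun z : K => (z : OnePoint K))).card ≤ m := by
          refine Finset.card_image_le.trans ((Multiset.toFinset_card_le _).trans ?_)
          refine (card_roots' _).trans ?_
          rw [natDegree_X_pow_sub_C]
        omega
      · push Not at hex
        have hsub : T ⊆ {∞, ((0 : K) : OnePoint K)} := by
          intro p hp
          have hpp := hT p hp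
          induction p using OnePoint.rec with
          | infty => simp
          | coe x =>
            by_cases hx : x = 0
            · rw [hx]; simp
            · exact absurd hpp (hex x hx)
        refine (Finset.card_le_card hsub).trans ?_
        have h1 : ({∞, ((0 : K) : OnePoint K)} : Finset (OnePoint K)).card ≤ 2 := Finset.card_le_two
        omega
    omega

/-- The self-map `z ↦ α z ^ a + l z ^ b` of `P¹(K)`, for integers `a`, `b` one of which is negative and
the other positive, or with `a < 0 = b`: `0` is mapped to `∞`, and `∞` is mapped to `∞`, respectively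
to `l`. -/
noncomputable def lau {K : Type*} [Field K] (α l : K) (a b : ℤ) : OnePoint K → OnePoint K
  | ∞ => if b = 0 then (l : OnePoint K) else ∞
  | (z : K) => by classical exact if z = 0 then ∞ else ((α * z ^ a + l * z ^ b : K) : OnePoint K)

/-- **All preperiodic points of `z ↦ α z ^ a + l z ^ b`, all parameters `l`.** -/
theorem main_all (K : Type) [Field K] [NumberField K] {α : K} (hα : α ≠ 0) {a b : ℤ}
    (hab : (a < 0 ∧ 0 ≤ b) ∨ (b < 0 ∧ 0 < a)) (hg : 4 ≤ Int.gcd a b) (ha : a ≠ 4) :
    ∃ (E : Finset K) (B : ℕ), ∀ l : K, l ≠ 0 →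
      (∀ T : Finset (OnePoint K), (∀ p ∈ T, Pre (lau α l a b) p) → T.card ≤ B) ∧
      (l ∉ E → ∀ x y : K, x ≠ 0 → y ≠ 0 → Pre (lau α l a b) (x : OnePoint K) →
        Pre (lau α l a b) (y : OnePoint K) → x ^ (a - b) = y ^ (a - b)) := by
  classical
  by_cases hb : b = 0
  · subst hb
    have ha0 : a < 0 := by
      rcases hab with h | h
      · exact h.1
      · exact absurd h.1 (lt_irrefl _)
    obtain ⟨m, rfl⟩ : ∃ m : ℕ, a = -(m : ℤ) := ⟨(-a).toNat, by omega⟩
    have hm : 4 ≤ m := by
      rw [Int.gcd_zero_right, Int.natAbs_neg, Int.natAbs_natCast] at hg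
      exact hg
    obtain ⟨E, B, hEB⟩ := main_neg K hα hm
    refine ⟨E, B, fun l hl => ?_⟩
    have hfun : lau α l (-(m : ℤ)) 0 = fN l α m := by
      funext p
      induction p using OnePoint.rec with
      | infty =>
        rw [fN_infty (by omega)]
        simp [lau]
      | coe z =>
        by_cases hz : z = 0
        · rw [hz, fN_zero (by omega)]
          simp [lau]
        · rw [fN_coe hz]
          simp only [lau, if_neg hz]
          congr 1
          rw [gN, zpow_neg, zpow_natCast, zpow_zero]
          ring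
    obtain ⟨h1, h2⟩ := hEB l hl
    rw [hfun]
    refine ⟨h1, fun hlE x y hx hy px py => ?_⟩
    rw [sub_zero, zpow_neg, zpow_neg, zpow_natCast, zpow_natCast, h2 hlE x y hx hy px py]
  · have hab' : a * b < 0 := by
      rcases hab with h | h
      · exact mul_neg_of_neg_of_pos h.1 (lt_of_le_of_ne h.2 (Ne.symm hb))
      · exact mul_neg_of_pos_of_neg h.2 h.1
    obtain ⟨E, B, hEB⟩ := main_int K hα hab' hg ha
    refine ⟨E, B, fun l hl => ?_⟩
    have hfun : lau α l a b = bin α l a b := by
      funext p
      induction p using OnePoint.rec with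
      | infty => simp [lau, bin, hb]
      | coe z => rfl
    rw [hfun]
    exact hEB l hl

end Pool.Agent.H422.BN
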